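import Mathlib

set_option autoImplicit false

/-! # The coefficients for two parts -/

namespace Pool.Agent.T9h92.MB2

/-- the absolute values -/
def cf (k q i j : ℕ) : ℕ :=
  if i < k ∨ j < q ∨ i < j then 0
  else if j < k then 1
  else if q < k then (if i = j then Nat.fib (j - k + 1) else Nat.fib (j - k + 3))
  else if i = j then (if j = k then 1 else Nat.fib (j - k - 1)) else Nat.fib (j - k + 1)

/-- the signed coefficients -/
def hh (k q i j : ℕ) : ℤ := (-1) ^ (i + j + k + q) * (cf k q i j : ℤ)

lemma cf_zero {k q i j : ℕ} (h : i < k ∨ j < q ∨ i < j) : cf k q i j = 0 := by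
  unfold cf; rw [if_pos h]

lemma cf_low {k q i j : ℕ} (h1 : k ≤ i) (h2 : q ≤ j) (h3 : j ≤ i) (h4 : j < k) :
    cf k q i j = 1 := by
  unfold cf; rw [if_neg (by omega), if_pos h4]

lemma cf_lt {k q i t : ℕ} (h : q < k) (hi : k + t < i) : cf k q i (k + t) = Nat.fib (t + 3) := by
  unfold cf
  rw [if_neg (by omega), if_neg (by omega), if_pos h, if_neg (by omega), Nat.add_sub_cancel_left]

lemma cf_lt' {k q t : ℕ} (h : q < k) : cf k q (k + t) (k + t) = Nat.fib (t + 1) := by
  unfold cf
  rw [if_neg (by omega), if_neg (by omega), if_pos h, if_pos rfl, Nat.add_sub_cancel_left]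

lemma cf_eq {k i t : ℕ} (hi : k + t < i) : cf k k i (k + t) = Nat.fib (t + 1) := by
  unfold cf
  rw [if_neg (by omega), if_neg (by omega), if_neg (by omega), if_neg (by omega),
    Nat.add_sub_cancel_left]

lemma cf_eq' {k t : ℕ} : cf k k (k + (t + 1)) (k + (t + 1)) = Nat.fib t := by
  unfold cf
  rw [if_neg (by omega), if_neg (by omega), if_neg (by omega), if_pos rfl, if_neg (by omega),
    Nat.add_sub_cancel_left]
  rfl

lemma cf_eq0 {k : ℕ} : cf k k k k = 1 := by
  unfold cf
  simp

lemma cf_R2 {k q i j : ℕ} (hqk : q ≤ k) (hij : j + 2 ≤ i) :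
    cf k q (i + 1) (j + 1) + cf k q i j =
      cf k q i (j + 1) + cf k q (i + 1) j + if i + 1 = k ∧ j + 1 = q then 1 else 0 := by
  rcases lt_trichotomy (i + 1) k with h | h | h
  · rw [cf_zero (by omega), cf_zero (by omega), cf_zero (by omega), cf_zero (by omega),
      if_neg (by omega)]
  · subst h
    rw [cf_zero (i := i) (by omega), cf_zero (i := i) (by omega)]
    rcases lt_trichotomy (j + 1) q with h | h | h
    · rw [cf_zero (by omega), cf_zero (by omega), if_neg (by omega)]
    · rw [cf_low (by omega) (by omega) (by omega) (by omega), cf_zero (by omega),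
        if_pos ⟨rfl, h⟩]
    · rw [cf_low (by omega) (by omega) (by omega) (by omega),
        cf_low (by omega) (by omega) (by omega) (by omega), if_neg (by omega)]
  · rw [if_neg (by omega), add_zero]
    have key : ∀ J, J < i → cf k q (i + 1) J = cf k q i J := by
      intro J hJ
      by_cases hJq : J < q
      · rw [cf_zero (by omega), cf_zero (by omega)]
      by_cases hJk : J < k
      · rw [cf_low (by omega) (by omega) (by omega) hJk, cf_low (by omega) (by omega) (by omega) hJk]
      obtain ⟨t, rfl⟩ : ∃ t, J = k + t := ⟨J - k, by omega⟩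
      rcases Nat.lt_or_ge q k with hq | hq
      · rw [cf_lt hq (by omega), cf_lt hq (by omega)]
      · have : q = k := by omega
        subst this
        rw [cf_eq (by omega), cf_eq (by omega)]
    rw [key _ (by omega), key _ (by omega)]

lemma cf_R1 {k q j : ℕ} (hqk : q ≤ k) :
    cf k q (j + 2) (j + 1) =
      cf k q (j + 1) (j + 1) + cf k q (j + 2) j + if j + 2 = k ∧ j + 1 = q then 1 else 0 := by
  rcases lt_trichotomy (j + 2) k with h | h | h
  · rw [cf_zero (by omega), cf_zero (by omega), cf_zero (by omega), if_neg (by omega)]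
  · subst h
    rw [cf_zero (i := j + 1) (by omega)]
    rcases lt_trichotomy (j + 1) q with h | h | h
    · rw [cf_zero (by omega), cf_zero (by omega), if_neg (by omega)]
    · rw [cf_low (by omega) (by omega) (by omega) (by omega), cf_zero (by omega),
        if_pos ⟨rfl, h⟩]
    · rw [cf_low (by omega) (by omega) (by omega) (by omega),
        cf_low (by omega) (by omega) (by omega) (by omega), if_neg (by omega)]
  · rw [if_neg (by omega), add_zero]
    rcases Nat.lt_or_ge q k with hq | hq
    · rcases Nat.lt_or_ge j k with hj | hj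
      · obtain rfl : k = j + 1 := by omega
        have e1 := cf_lt (k := j + 1) (q := q) (i := j + 2) (t := 0) hq (by omega)
        have e2 := cf_lt' (k := j + 1) (q := q) (t := 0) hq
        simp only [add_zero] at e1 e2
        rw [e1, e2, cf_low (by omega) (by omega) (by omega) (by omega)]
        rfl
      · obtain ⟨t, rfl⟩ : ∃ t, j = k + t := ⟨j - k, by omega⟩
        have e1 := cf_lt (k := k) (q := q) (i := k + t + 2) (t := t + 1) hq (by omega)
        have e2 := cf_lt' (k := k) (q := q) (t := t + 1) hq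
        have e3 := cf_lt (k := k) (q := q) (i := k + t + 2) (t := t) hq (by omega)
        rw [← add_assoc] at e1 e2
        rw [e1, e2, e3, show t + 1 + 3 = (t + 2) + 2 from rfl, Nat.fib_add_two]
    · have : q = k := by omega
      subst this
      rcases Nat.lt_or_ge j q with hj | hj
      · obtain rfl : q = j + 1 := by omega
        have e1 := cf_eq (k := j + 1) (i := j + 2) (t := 0) (by omega)
        simp only [add_zero] at e1
        rw [e1, cf_eq0, cf_zero (by omega)]
        rfl
      · obtain ⟨t, rfl⟩ : ∃ t, j = q + t := ⟨j - q, by omega⟩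
        have e1 := cf_eq (k := q) (i := q + t + 2) (t := t + 1) (by omega)
        have e2 := cf_eq' (k := q) (t := t)
        have e3 := cf_eq (k := q) (i := q + t + 2) (t := t) (by omega)
        rw [← add_assoc] at e1 e2
        rw [e1, e2, e3, show t + 1 + 1 = t + 2 from rfl, Nat.fib_add_two]

lemma cf_R0 {k q j : ℕ} (hqk : q ≤ k) :
    cf k q (j + 1) (j + 1) + cf k q j j =
      cf k q (j + 1) j + if j + 1 = k ∧ j + 1 = q then 1 else 0 := by
  rcases lt_trichotomy (j + 1) k with h | h | h
  · rw [cf_zero (by omega), cf_zero (by omega), cf_zero (by omega), if_neg (by omega)]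
  · subst h
    rw [cf_zero (i := j) (by omega)]
    rcases Nat.lt_or_ge q (j + 1) with hq | hq
    · have e2 := cf_lt' (k := j + 1) (q := q) (t := 0) hq
      simp only [add_zero] at e2
      rw [e2, cf_low (by omega) (by omega) (by omega) (by omega), if_neg (by omega)]
      rfl
    · have : q = j + 1 := by omega
      subst this
      rw [cf_eq0, cf_zero (by omega), if_pos ⟨rfl, rfl⟩]
  · rw [if_neg (by omega), add_zero]
    obtain ⟨t, rfl⟩ : ∃ t, j = k + t := ⟨j - k, by omega⟩
    rcases Nat.lt_or_ge q k with hq | hq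
    · have e1 := cf_lt' (k := k) (q := q) (t := t + 1) hq
      have e2 := cf_lt' (k := k) (q := q) (t := t) hq
      have e3 := cf_lt (k := k) (q := q) (i := k + t + 1) (t := t) hq (by omega)
      rw [← add_assoc] at e1
      rw [e1, e2, e3, add_comm]
      exact (Nat.fib_add_two (n := t + 1)).symm
    · have : q = k := by omega
      subst this
      have e1 := cf_eq' (k := q) (t := t)
      have e3 := cf_eq (k := q) (i := q + t + 1) (t := t) (by omega)
      rw [← add_assoc] at e1
      rw [e1, e3]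
      cases t with
      | zero =>
        rw [add_zero, cf_eq0]
        rfl
      | succ t =>
        rw [cf_eq' (k := q) (t := t), show t + 1 + 1 = t + 2 from rfl, Nat.fib_add_two, add_comm]

lemma sgn_even {m : ℕ} (h : m % 2 = 0) : ((-1 : ℤ)) ^ m = 1 := by
  obtain ⟨c, rfl⟩ : ∃ c, m = 2 * c := ⟨m / 2, by omega⟩
  rw [pow_mul]; simp

lemma hh_R2 {k q i j : ℕ} (hqk : q ≤ k) (hij : j + 2 ≤ i) :
    hh k q (i + 1) (j + 1) + hh k q i (j + 1) + hh k q (i + 1) j + hh k q i j =
      if i + 1 = k ∧ j + 1 = q then 1 else 0 := by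
  have h := cf_R2 (k := k) (q := q) hqk hij
  have h' := congrArg (fun x : ℕ => (x : ℤ)) h
  simp only [Nat.cast_add] at h'
  unfold hh
  have e1 : ((-1 : ℤ)) ^ (i + 1 + (j + 1) + k + q) = (-1) ^ (i + j + k + q) := by
    rw [show i + 1 + (j + 1) + k + q = (i + j + k + q) + 2 by ring, pow_add]; norm_num
  have e2 : ((-1 : ℤ)) ^ (i + (j + 1) + k + q) = -(-1) ^ (i + j + k + q) := by
    rw [show i + (j + 1) + k + q = (i + j + k + q) + 1 by ring, pow_succ]; ring
  have e3 : ((-1 : ℤ)) ^ (i + 1 + j + k + q) = -(-1) ^ (i + j + k + q) := by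
    rw [show i + 1 + j + k + q = (i + j + k + q) + 1 by ring, pow_succ]; ring
  rw [e1, e2, e3]
  by_cases hd : i + 1 = k ∧ j + 1 = q
  · rw [if_pos hd] at h' ⊢
    have e4 : ((-1 : ℤ)) ^ (i + j + k + q) = 1 := sgn_even (by omega)
    rw [e4]
    push_cast at h'
    linarith
  · rw [if_neg hd] at h' ⊢
    push_cast at h'
    have : (cf k q (i + 1) (j + 1) : ℤ) = cf k q i (j + 1) + cf k q (i + 1) j - cf k q i j := by
      linarith
    rw [this]
    ring

lemma hh_R1 {k q j : ℕ} (hqk : q ≤ k) :
    hh k q (j + 2) (j + 1) + hh k q (j + 1) (j + 1) + hh k q (j + 2) j =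
      if j + 2 = k ∧ j + 1 = q then 1 else 0 := by
  have h := cf_R1 (k := k) (q := q) (j := j) hqk
  have h' := congrArg (fun x : ℕ => (x : ℤ)) h
  simp only [Nat.cast_add] at h'
  unfold hh
  have e1 : ((-1 : ℤ)) ^ (j + 2 + (j + 1) + k + q) = -(-1) ^ (k + q) := by
    rw [show j + 2 + (j + 1) + k + q = (k + q) + (2 * (j + 1) + 1) by ring, pow_add, pow_succ,
      pow_mul]
    norm_num
  have e2 : ((-1 : ℤ)) ^ (j + 1 + (j + 1) + k + q) = (-1) ^ (k + q) := by
    rw [show j + 1 + (j + 1) + k + q = (k + q) + 2 * (j + 1) by ring, pow_add, pow_mul]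
    norm_num
  have e3 : ((-1 : ℤ)) ^ (j + 2 + j + k + q) = (-1) ^ (k + q) := by
    rw [show j + 2 + j + k + q = (k + q) + 2 * (j + 1) by ring, pow_add, pow_mul]
    norm_num
  rw [e1, e2, e3]
  by_cases hd : j + 2 = k ∧ j + 1 = q
  · rw [if_pos hd] at h' ⊢
    have e4 : ((-1 : ℤ)) ^ (k + q) = -1 := by
      rw [show k + q = 2 * (j + 1) + 1 by omega, pow_succ, pow_mul]
      norm_num
    rw [e4]
    push_cast at h'
    linarith
  · rw [if_neg hd] at h' ⊢
    push_cast at h'
    rw [h']
    ring

lemma hh_R0 {k q j : ℕ} (hqk : q ≤ k) :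
    hh k q (j + 1) (j + 1) + hh k q (j + 1) j + hh k q j j =
      if j + 1 = k ∧ j + 1 = q then 1 else 0 := by
  have h := cf_R0 (k := k) (q := q) (j := j) hqk
  have h' := congrArg (fun x : ℕ => (x : ℤ)) h
  simp only [Nat.cast_add] at h'
  unfold hh
  have e1 : ((-1 : ℤ)) ^ (j + 1 + (j + 1) + k + q) = (-1) ^ (k + q) := by
    rw [show j + 1 + (j + 1) + k + q = (k + q) + 2 * (j + 1) by ring, pow_add, pow_mul]
    norm_num
  have e2 : ((-1 : ℤ)) ^ (j + 1 + j + k + q) = -(-1) ^ (k + q) := by
    rw [show j + 1 + j + k + q = (k + q) + (2 * j + 1) by ring, pow_add, pow_succ, pow_mul]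
    norm_num
  have e3 : ((-1 : ℤ)) ^ (j + j + k + q) = (-1) ^ (k + q) := by
    rw [show j + j + k + q = (k + q) + 2 * j by ring, pow_add, pow_mul]
    norm_num
  rw [e1, e2, e3]
  by_cases hd : j + 1 = k ∧ j + 1 = q
  · rw [if_pos hd] at h' ⊢
    have e4 : ((-1 : ℤ)) ^ (k + q) = 1 := sgn_even (by omega)
    rw [e4]
    push_cast at h'
    linarith
  · rw [if_neg hd] at h' ⊢
    push_cast at h'
    have : (cf k q (j + 1) (j + 1) : ℤ) = cf k q (j + 1) j - cf k q j j := by linarith
    rw [this]
    ring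

lemma hh_zero {k q i j : ℕ} (h : i < k ∨ j < q ∨ i < j) : hh k q i j = 0 := by
  unfold hh; rw [cf_zero h]; simp

end Pool.Agent.T9h92.MB2
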