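import Pool.Agent.T9h92.MB2.Words

set_option autoImplicit false

/-! # The kernel on the partitions with equally many parts `≥ 2` -/

namespace Pool.Agent.T9h92.MB2

open Multiset Finset Pool.Agent.K1H55.MB

lemma ref_weight (ψ : ℕ → ℕ) (h0 : ψ 0 = 0) (hψ : ∀ x y, ψ x + ψ y ≤ ψ (x + y))
    {s r : Multiset ℕ} (h : Ref s r) : (s.map ψ).sum ≤ (r.map ψ).sum := by
  obtain ⟨P, rfl, rfl⟩ := h
  induction P using Multiset.induction with
  | empty => simp
  | cons Q P ih =>
    rw [Multiset.sum_cons, Multiset.map_add, Multiset.sum_add, Multiset.map_cons,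
      Multiset.map_cons, Multiset.sum_cons]
    have : (Q.map ψ).sum ≤ ψ Q.sum := by
      clear ih
      induction Q using Multiset.induction with
      | empty => simp [h0]
      | cons a Q ih =>
        rw [Multiset.map_cons, Multiset.sum_cons, Multiset.sum_cons]
        exact (Nat.add_le_add_left ih _).trans (hψ _ _)
    omega

/-- number of the non-plateau levels below `x` -/
def gl (S : Finset ℕ) (x : ℕ) : ℕ := ((Finset.range x).filter (· ∉ S)).card

/-- the weight -/
def psi (S : Finset ℕ) (x : ℕ) : ℕ := if 2 ≤ x then 2 ^ gl S x else 0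

lemma gl_mono (S : Finset ℕ) {x y : ℕ} (h : x ≤ y) : gl S x ≤ gl S y := by
  unfold gl
  apply Finset.card_le_card
  apply Finset.filter_subset_filter
  intro a ha
  rw [Finset.mem_range] at ha ⊢
  omega

lemma gl_succ (S : Finset ℕ) (x : ℕ) : gl S (x + 1) = gl S x + if x ∈ S then 0 else 1 := by
  unfold gl
  rw [Finset.range_add_one, Finset.filter_insert]
  by_cases h : x ∈ S
  · simp [h]
  · rw [if_pos h, if_neg h, Finset.card_insert_of_notMem (by simp)]

lemma psi_mono (S : Finset ℕ) {x y : ℕ} (h : x ≤ y) : psi S x ≤ psi S y := by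
  unfold psi
  by_cases hx : 2 ≤ x
  · rw [if_pos hx, if_pos (by omega)]
    exact Nat.pow_le_pow_right (by norm_num) (gl_mono S h)
  · rw [if_neg hx]
    exact Nat.zero_le _

lemma psi_double (S : Finset ℕ) (hS : ∀ v ∈ S, v + 1 ∉ S) {x y : ℕ} (hy : 2 ≤ y) (hyx : y ≤ x) :
    psi S x + psi S y ≤ psi S (x + y) := by
  have h1 : psi S y ≤ psi S x := psi_mono S hyx
  have h2 : psi S (x + 2) ≤ psi S (x + y) := psi_mono S (by omega)
  have h3 : 2 * psi S x ≤ psi S (x + 2) := by
    unfold psi
    rw [if_pos (by omega), if_pos (by omega), ← pow_succ']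
    apply Nat.pow_le_pow_right (by norm_num)
    rw [show x + 2 = x + 1 + 1 from rfl, gl_succ, gl_succ]
    by_cases h : x ∈ S
    · rw [if_pos h, if_neg (hS x h)]
    · rw [if_neg h]
      omega
  omega

lemma psi_super (S : Finset ℕ) (hS : ∀ v ∈ S, v + 1 ∉ S) (x y : ℕ) :
    psi S x + psi S y ≤ psi S (x + y) := by
  by_cases hx : 2 ≤ x
  · by_cases hy : 2 ≤ y
    · rcases le_total y x with h | h
      · exact psi_double S hS hy h
      · rw [add_comm x y, add_comm (psi S x)]
        exact psi_double S hS hx h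
    · have : psi S y = 0 := by unfold psi; rw [if_neg hy]
      rw [this, add_zero]
      exact psi_mono S (by omega)
  · have : psi S x = 0 := by unfold psi; rw [if_neg hx]
    rw [this, zero_add]
    exact psi_mono S (by omega)

lemma psi_step (S : Finset ℕ) {v : ℕ} (hv : 2 ≤ v) (h : v ∈ S) : psi S (v + 1) = psi S v := by
  unfold psi
  rw [if_pos (by omega), if_pos hv, gl_succ, if_pos h, add_zero]

lemma path_weight (S : Finset ℕ) {D C : Multiset ℕ} {u : List ℕ} (h : Path D u C)
    (hD : ∀ a ∈ D, 2 ≤ a) (hu : ∀ v ∈ u, v ∈ S) : (D.map (psi S)).sum = (C.map (psi S)).sum := by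
  induction u generalizing D with
  | nil => rw [show D = C from h]
  | cons v u ih =>
    rw [← ih h.2 ?_ (fun w hw => hu w (by simp [hw]))]
    · rw [Multiset.map_cons, Multiset.sum_cons, psi_step S (hD v h.1) (hu v (by simp))]
      conv_lhs => rw [← Multiset.cons_erase h.1, Multiset.map_cons, Multiset.sum_cons]
    · intro a ha
      rw [Multiset.mem_cons] at ha
      rcases ha with rfl | ha
      · have := hD v h.1
        omega
      · exact hD a (Multiset.mem_of_mem_erase ha)

lemma path_ref {D C : Multiset ℕ} {u : List ℕ} (h : Path D u C) (j : ℕ) :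
    Ref (D + replicate (u.length + j) 1) (C + replicate j 1) := by
  induction u generalizing D with
  | nil =>
    rw [show D = C from h]
    simpa using Ref.refl (C + replicate j 1)
  | cons v u ih =>
    refine Ref.trans ?_ (ih h.2)
    have h1 := (Ref.single {v, 1}).add (Ref.refl (D.erase v + replicate (u.length + j) 1))
    have e1 : D + replicate ((v :: u).length + j) 1 =
        {v, 1} + (D.erase v + replicate (u.length + j) 1) := by
      conv_lhs => rw [← Multiset.cons_erase h.1]
      rw [List.length_cons, show u.length + 1 + j = (u.length + j) + 1 by ring,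
        Multiset.replicate_succ]
      simp only [Multiset.insert_eq_cons, Multiset.cons_add, Multiset.add_cons,
        Multiset.singleton_add]
      exact Multiset.cons_swap _ _ _
    have e2 : (v + 1) ::ₘ D.erase v + replicate (u.length + j) 1 =
        {Multiset.sum {v, 1}} + (D.erase v + replicate (u.length + j) 1) := by
      simp [Multiset.insert_eq_cons]
    rw [e1, e2]
    exact h1

lemma bad_pairwise {u : List ℕ} (hu : Bad u) : u.Pairwise (fun a b => b = a ∨ b + 2 ≤ a) := by
  have : Trans (fun a b : ℕ => b = a ∨ b + 2 ≤ a) (fun a b : ℕ => b = a ∨ b + 2 ≤ a)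
      (fun a b : ℕ => b = a ∨ b + 2 ≤ a) := ⟨fun h h' => by omega⟩
  exact List.IsChain.pairwise hu

lemma bad_nonadj {u : List ℕ} (hu : Bad u) {v : ℕ} (hv : v ∈ u) : v + 1 ∉ u := by
  intro hv'
  have h := bad_pairwise hu
  obtain ⟨i, hi, rfl⟩ := List.mem_iff_getElem.1 hv
  obtain ⟨j, hj, hj'⟩ := List.mem_iff_getElem.1 hv'
  rw [List.pairwise_iff_getElem] at h
  rcases lt_trichotomy i j with h1 | h1 | h1
  · have := h i j hi hj h1
    omega
  · subst h1
    omega
  · have := h j i hj hi h1
    omega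

lemma weight_parts (S : Finset ℕ) {n : ℕ} (y : Lam n) :
    (y.parts.map (psi S)).sum = ((bigs y.parts).map (psi S)).sum := by
  conv_lhs => rw [(split_parts y).1]
  rw [Multiset.map_add, Multiset.sum_add, Multiset.map_replicate]
  have : psi S 1 = 0 := by unfold psi; simp
  rw [this]
  simp

lemma kernel_back {n : ℕ} {y r : Lam n} {u : List ℕ} (hu : Bad u)
    (hp : Path (bigs y.parts) u (bigs r.parts)) :
    y ≤ r ∧ ¬ (2 ≤ y.parts.count 1 ∧ U y ≤ r) := by
  have hy := split_parts y
  have hr := split_parts r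
  have hs := hp.sum
  constructor
  · rw [le_def, hy.1, hr.1]
    have := path_ref hp (n - (bigs r.parts).sum)
    rwa [show u.length + (n - (bigs r.parts).sum) = n - (bigs y.parts).sum by omega] at this
  · rintro ⟨h1, h2⟩
    have hS : ∀ v ∈ u.toFinset, v + 1 ∉ u.toFinset := by
      intro v hv
      rw [List.mem_toFinset] at hv ⊢
      exact bad_nonadj hu hv
    have h3 := ref_weight (psi u.toFinset) (by unfold psi; simp) (psi_super _ hS) (le_def.1 h2)
    have h4 := path_weight u.toFinset hp (fun a ha => two_le_of_mem_bigs ha)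
      (fun v hv => List.mem_toFinset.2 hv)
    rw [← weight_parts, ← weight_parts] at h4
    rw [← h4, U_parts h1] at h3
    conv_rhs at h3 => rw [ones_split h1]
    simp only [Multiset.map_cons, Multiset.sum_cons] at h3
    have h5 : psi u.toFinset 1 = 0 := by unfold psi; simp
    have h6 : 0 < psi u.toFinset 2 := by unfold psi; simp
    omega

lemma few' {n : ℕ} {y r : Lam n} {P : Multiset (Multiset ℕ)} (h1 : P.sum = y.parts)
    (h2 : P.map Multiset.sum = r.parts) {Q : Multiset ℕ} (hQ : Q ∈ P) (hQ2 : 2 ≤ Q.sum)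
    (hQ1 : ∀ a ∈ Q, a < 2) : 2 ≤ y.parts.count 1 ∧ U y ≤ r := by
  obtain ⟨P', rfl⟩ := Multiset.exists_cons_of_mem hQ
  rw [Multiset.sum_cons] at h1
  have hQ3 : ∀ a ∈ Q, a = 1 := by
    intro a ha
    have := hQ1 a ha
    have := y.pos (a := a) (by rw [← h1]; exact Multiset.mem_add.2 (Or.inl ha))
    omega
  have hQ4 := Multiset.eq_replicate_card.2 hQ3
  have hQ5 : 2 ≤ Multiset.card Q := by
    rw [hQ4] at hQ2
    simpa using hQ2
  obtain ⟨c, hc⟩ : ∃ c, Multiset.card Q = c + 2 := ⟨Multiset.card Q - 2, by omega⟩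
  rw [hc] at hQ4
  have hQ6 : Q = 1 ::ₘ 1 ::ₘ Multiset.replicate c 1 := by
    rw [hQ4]; simp [Multiset.replicate_succ]
  have hcount : 2 ≤ y.parts.count 1 := by
    rw [← h1, hQ6]
    simp
  refine ⟨hcount, ?_⟩
  rw [le_def, U_parts hcount, ← h1]
  refine ⟨(2 ::ₘ Multiset.replicate c 1) ::ₘ P', ?_, ?_⟩
  · rw [hQ6]
    simp
  · rw [← h2, hQ6]
    simp only [Multiset.map_cons, Multiset.sum_cons]
    congr 1
    omega

lemma bigs_add (s t : Multiset ℕ) : bigs (s + t) = bigs s + bigs t := Multiset.filter_add _ _ _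

lemma bigs_cons_pos {a : ℕ} (s : Multiset ℕ) (h : 2 ≤ a) : bigs (a ::ₘ s) = a ::ₘ bigs s :=
  Multiset.filter_cons_of_pos _ h

lemma bigs_cons_neg {a : ℕ} (s : Multiset ℕ) (h : ¬ 2 ≤ a) : bigs (a ::ₘ s) = bigs s :=
  Multiset.filter_cons_of_neg _ h

lemma big_blocks (P : Multiset (Multiset ℕ)) (hP : ∀ Q ∈ P, 2 ≤ Q.sum → ∃ a ∈ Q, 2 ≤ a) :
    Multiset.card (bigs (P.map Multiset.sum)) ≤ Multiset.card (bigs P.sum) := by
  induction P using Multiset.induction with
  | empty => simp
  | cons Q P ih =>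
    have ih' := ih fun R hR => hP R (Multiset.mem_cons_of_mem hR)
    rw [Multiset.map_cons, Multiset.sum_cons, bigs_add, Multiset.card_add]
    by_cases hQ : 2 ≤ Q.sum
    · rw [bigs_cons_pos _ hQ, Multiset.card_cons]
      obtain ⟨a, ha, h2⟩ := hP Q (Multiset.mem_cons_self _ _) hQ
      have h3 : 0 < Multiset.card (bigs Q) :=
        Multiset.card_pos_iff_exists_mem.2 ⟨a, Multiset.mem_filter.2 ⟨ha, h2⟩⟩
      omega
    · rw [bigs_cons_neg _ hQ]
      omega

lemma pairs (P : Multiset (Multiset ℕ)) (hP : ∀ Q ∈ P, 2 ≤ Q.sum → ∃ a ∈ Q, 2 ≤ a)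
    (hc : Multiset.card (bigs P.sum) ≤ Multiset.card (bigs (P.map Multiset.sum))) :
    ∃ M : Multiset (ℕ × ℕ), M.map Prod.fst = bigs P.sum ∧
      M.map Prod.snd = bigs (P.map Multiset.sum) ∧ ∀ p ∈ M, p.1 ≤ p.2 := by
  induction P using Multiset.induction with
  | empty => exact ⟨0, by simp [bigs], by simp [bigs], by simp⟩
  | cons Q P ih =>
    have hP' : ∀ R ∈ P, 2 ≤ R.sum → ∃ a ∈ R, 2 ≤ a := fun R hR =>
      hP R (Multiset.mem_cons_of_mem hR)
    have hb := big_blocks P hP'
    rw [Multiset.map_cons, Multiset.sum_cons, bigs_add, Multiset.card_add] at hc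
    by_cases hQ : 2 ≤ Q.sum
    · rw [bigs_cons_pos _ hQ, Multiset.card_cons] at hc
      obtain ⟨a, ha, h2⟩ := hP Q (Multiset.mem_cons_self _ _) hQ
      have ha' : a ∈ bigs Q := Multiset.mem_filter.2 ⟨ha, h2⟩
      have h3 : 0 < Multiset.card (bigs Q) := Multiset.card_pos_iff_exists_mem.2 ⟨a, ha'⟩
      have h4 : Multiset.card (bigs Q) = 1 := by omega
      obtain ⟨b, hb'⟩ := Multiset.card_eq_one.1 h4
      have hab : a = b := by rw [hb'] at ha'; simpa using ha'
      subst hab
      obtain ⟨M, h5, h6, h7⟩ := ih hP' (by omega)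
      refine ⟨(a, Q.sum) ::ₘ M, ?_, ?_, ?_⟩
      · rw [Multiset.map_cons, h5, Multiset.sum_cons, bigs_add, hb', Multiset.singleton_add]
      · rw [Multiset.map_cons, h6, Multiset.map_cons, bigs_cons_pos _ hQ]
      · intro p hp
        rw [Multiset.mem_cons] at hp
        rcases hp with rfl | hp
        · exact Multiset.single_le_sum (fun _ _ => Nat.zero_le _) _ ha
        · exact h7 p hp
    · rw [bigs_cons_neg _ hQ] at hc
      obtain ⟨M, h5, h6, h7⟩ := ih hP' (by omega)
      have h8 : bigs Q = 0 := by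
        unfold bigs
        apply Multiset.filter_eq_nil.2
        intro a ha h9
        have := Multiset.single_le_sum (fun _ _ => Nat.zero_le _) _ ha
        omega
      refine ⟨M, ?_, ?_, h7⟩
      · rw [h5, Multiset.sum_cons, bigs_add, h8, zero_add]
      · rw [h6, Multiset.map_cons, bigs_cons_neg _ hQ]

lemma ref_pairs (M : Multiset (ℕ × ℕ)) (hM : ∀ p ∈ M, p.1 ≤ p.2) (j : ℕ) :
    (M.map Prod.fst).sum + (M.map (fun p => p.2 - p.1)).sum = (M.map Prod.snd).sum ∧
    Ref (M.map Prod.fst + replicate ((M.map (fun p => p.2 - p.1)).sum + j) 1)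
      (M.map Prod.snd + replicate j 1) := by
  induction M using Multiset.induction with
  | empty => simpa using Ref.refl (replicate j 1)
  | cons p M ih =>
    obtain ⟨h1, h2⟩ := ih fun q hq => hM q (Multiset.mem_cons_of_mem hq)
    have hp := hM p (Multiset.mem_cons_self _ _)
    simp only [Multiset.map_cons, Multiset.sum_cons]
    refine ⟨by omega, ?_⟩
    have h3 := (Ref.single (p.1 ::ₘ replicate (p.2 - p.1) 1)).add h2
    have e1 : p.1 ::ₘ M.map Prod.fst +
        replicate (p.2 - p.1 + (M.map (fun p => p.2 - p.1)).sum + j) 1 =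
        p.1 ::ₘ replicate (p.2 - p.1) 1 +
          (M.map Prod.fst + replicate ((M.map (fun p => p.2 - p.1)).sum + j) 1) := by
      rw [add_assoc (p.2 - p.1), Multiset.replicate_add (p.2 - p.1)]
      simp only [Multiset.cons_add]
      congr 1
      exact add_left_comm _ _ _
    have e2 : p.2 ::ₘ M.map Prod.snd + replicate j 1 =
        {(p.1 ::ₘ replicate (p.2 - p.1) 1).sum} + (M.map Prod.snd + replicate j 1) := by
      simp only [Multiset.sum_cons, Multiset.sum_replicate, smul_eq_mul, mul_one,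
        Multiset.singleton_add, Multiset.cons_add]
      congr 1
      omega
    rw [e1, e2]
    exact h3

lemma U_le_of_pair {n : ℕ} {y r : Lam n} {M : Multiset (ℕ × ℕ)}
    (h1 : M.map Prod.fst = bigs y.parts) (h2 : M.map Prod.snd = bigs r.parts)
    (hM : ∀ p ∈ M, p.1 ≤ p.2) {p : ℕ × ℕ} (hp : p ∈ M) (hp2 : p.1 + 2 ≤ p.2) :
    2 ≤ y.parts.count 1 ∧ U y ≤ r := by
  obtain ⟨M', rfl⟩ := Multiset.exists_cons_of_mem hp
  have hy := split_parts y
  have hr := split_parts r
  have h3 := (ref_pairs _ hM 0).1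
  obtain ⟨h4, h5⟩ := ref_pairs ((p.1 + 2, p.2) ::ₘ M') (by
    intro q hq
    rw [Multiset.mem_cons] at hq
    rcases hq with rfl | hq
    · exact hp2
    · exact hM q (Multiset.mem_cons_of_mem hq)) (n - (bigs r.parts).sum)
  rw [h1, h2] at h3
  simp only [Multiset.map_cons, Multiset.sum_cons] at h1 h2 h3 h4 h5
  have hs1 : p.1 + (M'.map Prod.fst).sum = (bigs y.parts).sum := by
    rw [← h1, Multiset.sum_cons]
  have hs2 : p.2 + (M'.map Prod.snd).sum = (bigs r.parts).sum := by
    rw [← h2, Multiset.sum_cons]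
  have hc : y.parts.count 1 = n - (bigs y.parts).sum := by
    conv_lhs => rw [hy.1]
    rw [Multiset.count_add, Multiset.count_replicate_self, Multiset.count_eq_zero_of_notMem]
    · omega
    · intro h
      have := two_le_of_mem_bigs h
      omega
  have hcount : 2 ≤ y.parts.count 1 := by omega
  refine ⟨hcount, ?_⟩
  have e0 : (y.parts.erase 1).erase 1 =
      p.1 ::ₘ M'.map Prod.fst + replicate (n - (bigs y.parts).sum - 2) 1 := by
    have e := ones_split hcount
    have e' := hy.1
    obtain ⟨c, hc'⟩ : ∃ c, n - (bigs y.parts).sum = c + 2 := ⟨n - (bigs y.parts).sum - 2, by omega⟩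
    rw [hc', ← h1, Multiset.replicate_succ, Multiset.replicate_succ] at e'
    rw [hc']
    have e3 : 1 ::ₘ 1 ::ₘ (y.parts.erase 1).erase 1 =
        1 ::ₘ 1 ::ₘ (p.1 ::ₘ M'.map Prod.fst + replicate c 1) := by
      rw [← e, e']
      simp only [Multiset.add_cons]
    have e4 := (Multiset.cons_inj_right _).1 ((Multiset.cons_inj_right _).1 e3)
    simpa using e4
  rw [le_def, U_parts hcount, e0]
  have e8 : r.parts = p.2 ::ₘ M'.map Prod.snd + replicate (n - (bigs r.parts).sum) 1 := by
    rw [h2]
    exact hr.1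
  rw [e8]
  refine Ref.trans ?_ h5
  have h6 := (Ref.single {2, p.1}).add (Ref.refl (M'.map Prod.fst +
    replicate (n - (bigs y.parts).sum - 2) 1))
  have e5 : (p.2 - (p.1 + 2) + (M'.map (fun p => p.2 - p.1)).sum + (n - (bigs r.parts).sum)) =
      n - (bigs y.parts).sum - 2 := by omega
  rw [e5]
  have e6 : (2 : ℕ) ::ₘ (p.1 ::ₘ M'.map Prod.fst + replicate (n - (bigs y.parts).sum - 2) 1) =
      {2, p.1} + (M'.map Prod.fst + replicate (n - (bigs y.parts).sum - 2) 1) := by
    simp [Multiset.insert_eq_cons]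
  have e7 : (p.1 + 2) ::ₘ M'.map Prod.fst + replicate (n - (bigs y.parts).sum - 2) 1 =
      {Multiset.sum {2, p.1}} + (M'.map Prod.fst + replicate (n - (bigs y.parts).sum - 2) 1) := by
    simp [Multiset.insert_eq_cons, add_comm]
  rw [e6, e7]
  exact h6

lemma path_of_list (u : List ℕ) (X : Multiset ℕ) :
    Path ((u : Multiset ℕ) + X) u ((u.map (· + 1) : List ℕ) + X) := by
  induction u generalizing X with
  | nil => exact rfl
  | cons v u ih =>
    refine ⟨by simp, ?_⟩
    have h := ih ((v + 1) ::ₘ X)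
    have e1 : (v + 1) ::ₘ (((v :: u : List ℕ) : Multiset ℕ) + X).erase v =
        (u : Multiset ℕ) + (v + 1) ::ₘ X := by
      rw [← Multiset.cons_coe, Multiset.cons_add, Multiset.erase_cons_head, Multiset.add_cons]
    have e2 : (((v :: u).map (· + 1) : List ℕ) : Multiset ℕ) + X =
        ((u.map (· + 1) : List ℕ) : Multiset ℕ) + (v + 1) ::ₘ X := by
      rw [List.map_cons, ← Multiset.cons_coe, Multiset.cons_add, Multiset.add_cons]
    rw [e1, e2]
    exact h

lemma kernel_forward {n : ℕ} {y r : Lam n} (hb : big y.parts = big r.parts) (hle : y ≤ r)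
    (hU : ¬ (2 ≤ y.parts.count 1 ∧ U y ≤ r)) :
    ∃ u, Bad u ∧ Path (bigs y.parts) u (bigs r.parts) := by
  obtain ⟨P, hP1, hP2⟩ := id hle
  have hP3 : ∀ Q ∈ P, 2 ≤ Q.sum → ∃ a ∈ Q, 2 ≤ a := by
    intro Q hQ hQ2
    by_contra hc
    push Not at hc
    exact hU (few' hP1 hP2 hQ hQ2 hc)
  obtain ⟨M, h1, h2, h3⟩ := pairs P hP3 (by
    rw [hP1, hP2, card_bigs, card_bigs, hb])
  rw [hP1] at h1
  rw [hP2] at h2
  have h4 : ∀ p ∈ M, p.2 = p.1 ∨ p.2 = p.1 + 1 := by
    intro p hp
    have := h3 p hp
    by_contra hc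
    exact hU (U_le_of_pair h1 h2 h3 hp (by omega))
  have h5 : ∀ v, (v, v + 1) ∈ M → (v + 1, v + 2) ∈ M → False := by
    intro v hv hv'
    obtain ⟨M1, rfl⟩ := Multiset.exists_cons_of_mem hv
    rw [Multiset.mem_cons] at hv'
    rcases hv' with hv' | hv'
    · simp at hv'
    obtain ⟨M2, rfl⟩ := Multiset.exists_cons_of_mem hv'
    apply hU
    refine U_le_of_pair (M := (v, v + 2) ::ₘ (v + 1, v + 1) ::ₘ M2) ?_ ?_ ?_
      (Multiset.mem_cons_self _ _) le_rfl
    · rw [← h1]; simp
    · rw [← h2]
      simp only [Multiset.map_cons]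
      exact Multiset.cons_swap _ _ _
    · intro p hp
      simp only [Multiset.mem_cons] at hp
      rcases hp with rfl | rfl | hp
      · simp
      · simp
      · exact h3 p (Multiset.mem_cons_of_mem (Multiset.mem_cons_of_mem hp))
  set I := M.filter (fun p => p.2 = p.1 + 1) with hI
  set E := M.filter (fun p => ¬ p.2 = p.1 + 1) with hE
  have hM : M = I + E := (Multiset.filter_add_not _ _).symm
  set u := (I.map Prod.fst).sort (· ≥ ·) with hu
  have hu1 : (u : Multiset ℕ) = I.map Prod.fst := Multiset.sort_eq _ _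
  refine ⟨u, ?_, ?_⟩
  · have hs : u.Pairwise (· ≥ ·) := Multiset.pairwise_sort _ _
    have hmem : ∀ v ∈ u, (v, v + 1) ∈ M := by
      intro v hv
      have : v ∈ I.map Prod.fst := by rw [← hu1]; exact hv
      obtain ⟨p, hp, rfl⟩ := Multiset.mem_map.1 this
      rw [hI, Multiset.mem_filter] at hp
      have : p = (p.1, p.1 + 1) := Prod.ext rfl hp.2
      rw [← this]
      exact hp.1
    have hs' : u.Pairwise (fun a b => b = a ∨ b + 2 ≤ a) := by
      refine hs.imp_of_mem ?_
      intro a b ha hb' hab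
      by_contra hc
      have hab' : a = b + 1 := by omega
      subst hab'
      exact h5 b (hmem b hb') (hmem (b + 1) ha)
    exact hs'.isChain
  · have h6 := path_of_list u (E.map Prod.fst)
    have e1 : bigs y.parts = (u : Multiset ℕ) + E.map Prod.fst := by
      rw [← h1, hM, Multiset.map_add, hu1]
    have e2 : bigs r.parts = ((u.map (· + 1) : List ℕ) : Multiset ℕ) + E.map Prod.fst := by
      rw [← h2, hM, Multiset.map_add, ← Multiset.map_coe, hu1, Multiset.map_map]
      congr 1
      · apply Multiset.map_congr rfl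
        intro p hp
        rw [hI, Multiset.mem_filter] at hp
        simp [hp.2]
      · apply Multiset.map_congr rfl
        intro p hp
        rw [hE, Multiset.mem_filter] at hp
        have := h4 p hp.1
        have := hp.2
        omega
    rw [e1, e2]
    exact h6

lemma path_count {D C : Multiset ℕ} {u : List ℕ} (h : Path D u C) (v : ℕ) :
    C.countP (v < ·) = D.countP (v < ·) + u.count v := by
  induction u generalizing D with
  | nil => rw [show D = C from h]; simp
  | cons a u ih =>
    rw [ih h.2, Multiset.countP_cons, List.count_cons]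
    have h1 : D.countP (v < ·) = (D.erase a).countP (v < ·) + if v < a then 1 else 0 := by
      conv_lhs => rw [← Multiset.cons_erase h.1, Multiset.countP_cons]
    rw [h1]
    by_cases h2 : v < a
    · rw [if_pos h2, if_pos (by omega : v < a + 1), if_neg (by simp; omega)]
      omega
    · by_cases h3 : v = a
      · subst h3
        simp
        omega
      · rw [if_neg h2, if_neg (by omega : ¬ v < a + 1), if_neg (by simp; omega)]
        omega

lemma bad_unique {D C : Multiset ℕ} {u u' : List ℕ} (h : Path D u C) (h' : Path D u' C)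
    (hu : Bad u) (hu' : Bad u') : u = u' := by
  have hp : u.Perm u' := by
    rw [List.perm_iff_count]
    intro v
    have h1 := path_count h v
    have h2 := path_count h' v
    omega
  refine List.Perm.eq_of_pairwise (le := fun a b : ℕ => b = a ∨ b + 2 ≤ a) ?_ (bad_pairwise hu)
    (bad_pairwise hu') hp
  intro a b _ _ h1 h2
  omega

end Pool.Agent.T9h92.MB2
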