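import Pool.Agent.T9h92.MB2.Kernel

set_option autoImplicit false

/-! # The formula for partitions with equally many parts `≥ 2` -/

namespace Pool.Agent.T9h92.MB2

open Multiset Finset Pool.Agent.K1H55.MB

open Classical in
/-- the signed number of the good words -/
noncomputable def hw {n : ℕ} (l z : Lam n) : ℤ :=
  ∑ w ∈ Wd (bigs l.parts) (bigs z.parts), if Good w then (-1 : ℤ) ^ w.length else 0

lemma hw_zero {n : ℕ} {l z : Lam n} (h : big z.parts ≠ big l.parts) : hw l z = 0 := by
  unfold hw
  rw [Finset.sum_eq_zero]
  intro w hw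
  rw [mem_Wd] at hw
  have := hw.card
  rw [card_bigs, card_bigs] at this
  exact absurd this h

open Classical in
lemma kappa {n : ℕ} {y r : Lam n} (hb : big y.parts = big r.parts) :
    (∑ u ∈ Wd (bigs y.parts) (bigs r.parts), if Bad u then (1 : ℤ) else 0) =
      if y ≤ r ∧ ¬ (2 ≤ y.parts.count 1 ∧ U y ≤ r) then 1 else 0 := by
  by_cases h : ∃ u, Bad u ∧ Path (bigs y.parts) u (bigs r.parts)
  · obtain ⟨u, h1, h2⟩ := h
    rw [if_pos (kernel_back h1 h2), Finset.sum_eq_single_of_mem u (mem_Wd.2 h2), if_pos h1]
    intro u' hu' hne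
    rw [if_neg]
    intro hb'
    exact hne (bad_unique (mem_Wd.1 hu') h2 hb' h1)
  · rw [if_neg (fun hc => h (kernel_forward hb hc.1 hc.2)), Finset.sum_eq_zero]
    intro u hu
    rw [if_neg]
    intro hb'
    exact h ⟨u, hb', mem_Wd.1 hu⟩

lemma H_self {n : ℕ} (l : Lam n) : H l l = 1 := by
  have h1 := sum_H l l
  rw [if_pos rfl, Finset.sum_eq_single_of_mem l] at h1
  · exact h1
  · simp only [Finset.mem_filter, Finset.mem_univ, true_and, le_refl, true_and]
    rintro ⟨h2, h3⟩
    exact U_ne l h2 (le_antisymm h3 (le_U l h2))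
  · intro y hy hyl
    simp only [Finset.mem_filter, Finset.mem_univ, true_and] at hy
    by_contra hc
    exact hyl (le_antisymm hy.1 (H_ne hc))

lemma hw_self {n : ℕ} (l : Lam n) : hw l l = 1 := by
  unfold hw
  rw [Finset.sum_eq_single_of_mem []]
  · simp [Good]
  · rw [mem_Wd]; exact rfl
  · intro w hw hne
    rw [mem_Wd] at hw
    have := hw.sum
    exact absurd (List.length_eq_zero_iff.1 (by omega)) hne

/-- **the formula for `H`** -/
theorem H_words {n : ℕ} (l z : Lam n) (hz : big z.parts = big l.parts) : H l z = hw l z := by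
  classical
  induction z using WellFoundedLT.induction with
  | ind z ih =>
    by_cases hlz : l = z
    · subst hlz
      rw [H_self, hw_self]
    · have h1 := sum_H l z
      rw [if_neg hlz] at h1
      have hmem : z ∈ (univ : Finset (Lam n)).filter
          (fun y => y ≤ z ∧ ¬ (2 ≤ y.parts.count 1 ∧ U y ≤ z)) := by
        simp only [Finset.mem_filter, Finset.mem_univ, true_and, le_refl, true_and]
        rintro ⟨h2, h3⟩
        exact U_ne z h2 (le_antisymm h3 (le_U z h2))
      have h2 : ∑ y ∈ (univ : Finset (Lam n)).filter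
          (fun y => y ≤ z ∧ ¬ (2 ≤ y.parts.count 1 ∧ U y ≤ z)), hw l y = 0 := by
        have h3 := double n (B := bigs l.parts) (C := bigs z.parts)
          (fun a ha => two_le_of_mem_bigs ha) (split_parts z).2
          (fun hc => hlz (bigs_ext hc))
        rw [← h3, Finset.sum_filter]
        apply Finset.sum_congr rfl
        intro y _
        change _ = hw l y * _
        by_cases hy : big y.parts = big l.parts
        · rw [kappa (by rw [hy, hz])]
          split_ifs <;> simp
        · rw [hw_zero hy]
          simp
      have h4 : ∀ y ∈ ((univ : Finset (Lam n)).filter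
          (fun y => y ≤ z ∧ ¬ (2 ≤ y.parts.count 1 ∧ U y ≤ z))).erase z, H l y = hw l y := by
        intro y hy
        rw [Finset.mem_erase, Finset.mem_filter] at hy
        rcases lt_trichotomy (big y.parts) (big l.parts) with hb | hb | hb
        · exact absurd (few hy.2.2.1 (by rw [hz]; exact hb)) hy.2.2.2
        · exact ih y (lt_of_le_of_ne hy.2.2.1 hy.1) hb
        · rw [H_zero l y hb, hw_zero (by omega)]
      rw [← Finset.add_sum_erase _ _ hmem] at h1 h2
      rw [Finset.sum_congr rfl h4] at h1
      linarith

lemma Path.length_card {n : ℕ} {l z : Lam n} {w : List ℕ}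
    (h : Path (bigs l.parts) w (bigs z.parts)) :
    Multiset.card l.parts = Multiset.card z.parts + w.length := by
  have h1 := congrArg Multiset.card (split_parts l).1
  have h2 := congrArg Multiset.card (split_parts z).1
  have h3 := (split_parts l).2
  have h4 := (split_parts z).2
  rw [Multiset.card_add, Multiset.card_replicate] at h1 h2
  have h5 := h.sum
  have h6 := h.card
  omega

/-- the set of the good words from `l` to `z` -/
def words {n : ℕ} (l z : Lam n) : Set (List ℕ) :=
  {w | w.IsChain (fun a b => b + 1 = a ∨ a < b) ∧ Path (bigs l.parts) w (bigs z.parts)}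

lemma words_finite {n : ℕ} (l z : Lam n) : (words l z).Finite := by
  apply Set.Finite.subset (Finset.finite_toSet (Wd (bigs l.parts) (bigs z.parts)))
  intro w hw
  exact mem_Wd.2 hw.2

theorem hw_eq {n : ℕ} (l z : Lam n) :
    hw l z = (-1) ^ (Multiset.card l.parts - Multiset.card z.parts) * ((words l z).ncard : ℤ) := by
  classical
  unfold hw
  have e1 : words l z = ((Wd (bigs l.parts) (bigs z.parts)).filter (fun w => Good w) : Set _) := by
    ext w
    rw [Finset.mem_coe, Finset.mem_filter, mem_Wd]
    exact and_comm
  rw [e1, Set.ncard_coe_finset, ← Finset.sum_filter, Finset.card_eq_sum_ones, Nat.cast_sum,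
    Finset.mul_sum]
  apply Finset.sum_congr rfl
  intro w hw
  rw [Finset.mem_filter, mem_Wd] at hw
  have := Path.length_card hw.1
  rw [show Multiset.card l.parts - Multiset.card z.parts = w.length by omega]
  simp

end Pool.Agent.T9h92.MB2
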