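import Pool.Agent.T9h92.MB2.Main

set_option autoImplicit false

/-! # The formula for all pairs -/

namespace Pool.Agent.T9h92.MB2

open Multiset Finset Pool.Agent.K1H55.MB

/-- the signed number of the words -/
noncomputable def NN (n : ℕ) : Matrix (Lam n) (Lam n) ℤ := fun l z =>
  (-1) ^ (Multiset.card l.parts - Multiset.card z.parts) * ((words l z).ncard : ℤ)

open Classical in
/-- `1` if `y ≤ z`, `z` has fewer parts `≥ 2` than `y`, and merging two parts `1` of `y` does not
give a partition `≤ z`; otherwise `0` -/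
noncomputable def TT (n : ℕ) : Matrix (Lam n) (Lam n) ℤ := fun y z =>
  if y ≤ z ∧ big z.parts < big y.parts ∧ ¬ (2 ≤ y.parts.count 1 ∧ U y ≤ z) then 1 else 0

open Classical in
/-- the kernel -/
noncomputable def KK (n : ℕ) : Matrix (Lam n) (Lam n) ℤ := fun y z =>
  if y ≤ z ∧ ¬ (2 ≤ y.parts.count 1 ∧ U y ≤ z) then 1 else 0

open Classical in
/-- the kernel for equally many parts `≥ 2` -/
noncomputable def KE (n : ℕ) : Matrix (Lam n) (Lam n) ℤ := fun y z =>
  if big y.parts = big z.parts then KK n y z else 0

/-- the matrix of `H` -/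
noncomputable def HH (n : ℕ) : Matrix (Lam n) (Lam n) ℤ := fun l z => H l z

lemma NN_eq {n : ℕ} (l z : Lam n) : NN n l z = hw l z := (hw_eq l z).symm

lemma KK_split (n : ℕ) : KK n = KE n + TT n := by
  classical
  ext y z
  rw [Matrix.add_apply]
  unfold KE TT KK
  by_cases hK : y ≤ z ∧ ¬ (2 ≤ y.parts.count 1 ∧ U y ≤ z)
  · rw [if_pos hK]
    rcases lt_trichotomy (big y.parts) (big z.parts) with h | h | h
    · exact absurd (few hK.1 h) hK.2
    · rw [if_pos h, if_neg (fun h' => absurd h'.2.1 (by omega)), add_zero]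
    · rw [if_neg h.ne', if_pos ⟨hK.1, h, hK.2⟩, zero_add]
  · rw [if_neg hK]
    have h1 : ¬ (y ≤ z ∧ big z.parts < big y.parts ∧ ¬ (2 ≤ y.parts.count 1 ∧ U y ≤ z)) :=
      fun h => hK ⟨h.1, h.2.2⟩
    rw [if_neg h1, ite_self, add_zero]

lemma HK (n : ℕ) : HH n * KK n = 1 := by
  classical
  ext l z
  rw [Matrix.mul_apply, Matrix.one_apply]
  unfold HH KK
  rw [← sum_H l z, Finset.sum_filter]
  apply Finset.sum_congr rfl
  intro y _
  split_ifs <;> simp

lemma NK (n : ℕ) : NN n * KE n = 1 := by
  classical
  ext l z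
  rw [Matrix.mul_apply, Matrix.one_apply]
  simp only [NN_eq]
  by_cases hb : big z.parts = big l.parts
  · by_cases hlz : l = z
    · subst hlz
      rw [if_pos rfl, Finset.sum_eq_single_of_mem l (Finset.mem_univ _), hw_self]
      · unfold KE KK
        rw [if_pos rfl, if_pos, one_mul]
        refine ⟨le_rfl, ?_⟩
        rintro ⟨h2, h3⟩
        exact U_ne l h2 (le_antisymm h3 (le_U l h2))
      · intro y _ hy
        unfold KE KK
        by_cases h1 : y ≤ l
        · by_cases h2 : big y.parts = big l.parts
          · rw [← H_words l y h2]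
            by_cases h3 : H l y = 0
            · rw [h3, zero_mul]
            · exact absurd (le_antisymm h1 (H_ne h3)) hy
          · rw [if_neg h2, mul_zero]
        · rw [if_neg (c := y ≤ l ∧ _) (fun h => h1 h.1)]
          simp
    · rw [if_neg hlz]
      have h3 := double n (B := bigs l.parts) (C := bigs z.parts)
        (fun a ha => two_le_of_mem_bigs ha) (split_parts z).2
        (fun hc => hlz (bigs_ext hc))
      refine Eq.trans ?_ h3
      apply Finset.sum_congr rfl
      intro y _
      change _ = hw l y * _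
      by_cases hy : big y.parts = big l.parts
      · rw [kappa (by rw [hy, hb])]
        unfold KE KK
        rw [if_pos (by rw [hy, hb])]
      · rw [hw_zero hy]
        simp
  · rw [if_neg (by rintro rfl; exact hb rfl)]
    apply Finset.sum_eq_zero
    intro y _
    by_cases hy : big y.parts = big l.parts
    · unfold KE
      rw [if_neg (by rw [hy]; exact fun h => hb h.symm), mul_zero]
    · rw [hw_zero hy, zero_mul]

lemma KN (n : ℕ) : KE n * NN n = 1 := by
  classical
  exact mul_eq_one_comm.1 (NK n)

/-- the recursion -/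
lemma H_rec_mat (n : ℕ) : HH n = NN n - HH n * (TT n * NN n) := by
  have h1 := HK n
  rw [KK_split, mul_add] at h1
  have h2 : (HH n * KE n + HH n * TT n) * NN n = NN n := by rw [h1, one_mul]
  rw [add_mul, mul_assoc, KN, mul_one, mul_assoc] at h2
  exact eq_sub_of_add_eq h2

lemma H_sum_mat (n m : ℕ) : HH n = ∑ t ∈ Finset.range m,
    (-1 : ℤ) ^ t • (NN n * (TT n * NN n) ^ t) + (-1 : ℤ) ^ m • (HH n * (TT n * NN n) ^ m) := by
  induction m with
  | zero => simp
  | succ m ih =>
    rw [Finset.sum_range_succ]
    have h1 : HH n * (TT n * NN n) ^ m =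
        NN n * (TT n * NN n) ^ m - HH n * (TT n * NN n) ^ (m + 1) := by
      conv_lhs => rw [H_rec_mat n]
      rw [sub_mul, mul_assoc (HH n), ← pow_succ']
    conv_lhs => rw [ih, h1]
    rw [smul_sub, pow_succ (-1 : ℤ) m, mul_neg_one, neg_smul]
    abel

lemma TN_zero {n : ℕ} (t : ℕ) {y z : Lam n} (h : big y.parts < big z.parts + t) :
    ((TT n * NN n) ^ t) y z = 0 := by
  induction t generalizing y with
  | zero =>
    rw [pow_zero, Matrix.one_apply, if_neg]
    rintro rfl
    omega
  | succ t ih =>
    rw [pow_succ', Matrix.mul_apply]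
    apply Finset.sum_eq_zero
    intro x _
    by_cases hx : big x.parts < big z.parts + t
    · rw [ih hx, mul_zero]
    · rw [Matrix.mul_apply, Finset.sum_eq_zero, zero_mul]
      intro w _
      by_cases hw' : big x.parts = big w.parts
      · unfold TT
        rw [if_neg, zero_mul]
        rintro ⟨-, h2, -⟩
        omega
      · rw [NN_eq, hw_zero hw', mul_zero]

/-- **the formula for all pairs** -/
theorem H_all {n : ℕ} (l z : Lam n) :
    H l z = ∑ t ∈ Finset.range (big l.parts - big z.parts + 1),
      (-1 : ℤ) ^ t * (NN n * (TT n * NN n) ^ t) l z := by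
  classical
  have h1 := congrFun (congrFun (H_sum_mat n (big l.parts - big z.parts + 1)) l) z
  rw [Matrix.add_apply, Matrix.sum_apply] at h1
  simp only [Matrix.smul_apply, smul_eq_mul] at h1
  have h2 : (HH n * (TT n * NN n) ^ (big l.parts - big z.parts + 1)) l z = 0 := by
    rw [Matrix.mul_apply]
    apply Finset.sum_eq_zero
    intro y _
    by_cases hy : big l.parts < big y.parts
    · unfold HH
      rw [H_zero l y hy, zero_mul]
    · rw [TN_zero _ (by omega), mul_zero]
  rw [h2, mul_zero, add_zero] at h1
  exact h1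

end Pool.Agent.T9h92.MB2
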