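import Pool.Agent.T9h92.MB2.Two

set_option autoImplicit false

/-! # One part `≥ 2` in the upper partition -/

namespace Pool.Agent.T9h92.MB2

open Multiset Finset Pool.Agent.K1H55.MB

lemma sum_filter_psi (s : Multiset ℕ) :
    (s.map (fun x => if 2 ≤ x then x else 0)).sum = (bigs s).sum := by
  induction s using Multiset.induction with
  | empty => simp [bigs]
  | cons a s ih =>
    rw [Multiset.map_cons, Multiset.sum_cons, ih]
    by_cases h : 2 ≤ a
    · rw [bigs_cons_pos _ h, if_pos h, Multiset.sum_cons]
    · rw [bigs_cons_neg _ h, if_neg h, zero_add]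

lemma le_bs {n : ℕ} {y z : Lam n} (h : y ≤ z) :
    (bigs y.parts).sum ≤ (bigs z.parts).sum := by
  have := ref_weight (fun x => if 2 ≤ x then x else 0) (by simp) (by
    intro x y
    split_ifs <;> omega) (le_def.1 h)
  rwa [sum_filter_psi, sum_filter_psi] at this

lemma le_hook {n m : ℕ} {y z : Lam n} (hz : bigs z.parts = {m})
    (h : (bigs y.parts).sum ≤ m) : y ≤ z := by
  have hy := split_parts y
  have hz' := split_parts z
  rw [hz, Multiset.sum_singleton] at hz'
  rw [le_def, hy.1, hz'.1]
  have h1 := (Ref.single (bigs y.parts + replicate (m - (bigs y.parts).sum) 1)).add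
    (Ref.refl (replicate (n - m) 1))
  have e1 : bigs y.parts + replicate (n - (bigs y.parts).sum) 1 =
      bigs y.parts + replicate (m - (bigs y.parts).sum) 1 + replicate (n - m) 1 := by
    rw [add_assoc, ← Multiset.replicate_add]
    congr 2
    omega
  have e2 : (bigs y.parts + replicate (m - (bigs y.parts).sum) 1).sum = m := by
    rw [Multiset.sum_add, Multiset.sum_replicate]
    simp only [smul_eq_mul, mul_one]
    omega
  rw [e1]
  rwa [e2] at h1

lemma count_one' {n : ℕ} (y : Lam n) : y.parts.count 1 = n - (bigs y.parts).sum := by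
  conv_lhs => rw [(split_parts y).1]
  rw [Multiset.count_add, Multiset.count_replicate_self, Multiset.count_eq_zero_of_notMem]
  · omega
  · intro h
    have := two_le_of_mem_bigs h
    omega

lemma bigs_U {n : ℕ} {y : Lam n} (h : 2 ≤ y.parts.count 1) :
    (bigs (U y).parts).sum = (bigs y.parts).sum + 2 := by
  rw [U_parts h, bigs_cons_pos _ le_rfl, Multiset.sum_cons]
  conv_rhs => rw [ones_split h]
  rw [bigs_cons_neg _ (by norm_num), bigs_cons_neg _ (by norm_num), add_comm]

lemma KK_hook {n m : ℕ} {y z : Lam n} (hz : bigs z.parts = {m}) :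
    KK n y z = if m ≤ (bigs y.parts).sum + 1 ∧ (bigs y.parts).sum ≤ m then 1 else 0 := by
  have hm : m ≤ n := by
    have := (split_parts z).2
    rwa [hz, Multiset.sum_singleton] at this
  unfold KK
  congr 1
  apply propext
  constructor
  · rintro ⟨h1, h2⟩
    have h3 := le_bs h1
    rw [hz, Multiset.sum_singleton] at h3
    refine ⟨?_, h3⟩
    by_contra hc
    apply h2
    have h4 : 2 ≤ y.parts.count 1 := by rw [count_one']; omega
    exact ⟨h4, le_hook hz (by rw [bigs_U h4]; omega)⟩
  · rintro ⟨h1, h2⟩
    refine ⟨le_hook hz h2, ?_⟩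
    rintro ⟨h3, h4⟩
    have h5 := le_bs h4
    rw [hz, Multiset.sum_singleton, bigs_U h3] at h5
    omega

/-- the sum of `H` over the partitions with given sum of the parts `≥ 2` -/
noncomputable def Th {n : ℕ} (l : Lam n) (m : ℕ) : ℤ :=
  ∑ y ∈ (univ : Finset (Lam n)).filter (fun y => (bigs y.parts).sum = m), H l y

theorem Th_zero {n : ℕ} {l : Lam n} (hl : 2 ≤ big l.parts) (m : ℕ) (hm : 1 ≤ m) (hmn : m ≤ n) :
    Th l m = 0 := by
  classical
  induction m with
  | zero => omega
  | succ m ih =>
    rcases Nat.eq_zero_or_pos m with rfl | hm'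
    · unfold Th
      apply Finset.sum_eq_zero
      intro y hy
      rw [Finset.mem_filter] at hy
      exfalso
      rcases Multiset.empty_or_exists_mem (bigs y.parts) with he | ⟨a, ha⟩
      · rw [he] at hy
        simp at hy
      · have h1 := two_le_of_mem_bigs ha
        have h2 := Multiset.single_le_sum (fun _ _ => Nat.zero_le _) _ ha
        omega
    · have hz : bigs (toLam n {m + 1}).parts = {m + 1} := bigs_toLam (by
        intro a ha
        rw [Multiset.mem_singleton] at ha
        omega) (by simpa using hmn)
      have hHK := congrFun (congrFun (HK n) l) (toLam n {m + 1})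
      rw [Matrix.mul_apply, Matrix.one_apply, if_neg] at hHK
      · have e1 : ∑ y : Lam n, HH n l y * KK n y (toLam n {m + 1}) = Th l (m + 1) + Th l m := by
          unfold Th
          rw [Finset.sum_filter, Finset.sum_filter, ← Finset.sum_add_distrib]
          apply Finset.sum_congr rfl
          intro y _
          rw [KK_hook hz]
          unfold HH
          by_cases h1 : (bigs y.parts).sum = m + 1
          · rw [if_pos (by omega), if_pos h1, if_neg (by omega)]
            ring
          · by_cases h2 : (bigs y.parts).sum = m
            · rw [if_pos (by omega), if_neg h1, if_pos h2]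
              ring
            · rw [if_neg (by omega), if_neg h1, if_neg h2]
              ring
        rw [e1, ih (by omega) (by omega)] at hHK
        linarith
      · rintro rfl
        rw [← card_bigs, hz] at hl
        simp at hl

/-- **one part** -/
theorem H_one {n k q : ℕ} {l : Lam n} (hl : bigs l.parts = {k, q}) (hq : 2 ≤ q) (hqk : q ≤ k)
    {m : ℕ} (hm : 2 ≤ m) {z : Lam n} (hz : bigs z.parts = {m}) :
    H l z = -∑ j ∈ Finset.range (m + 1), hh k q (m - j) j := by
  classical
  have hl2 : big l.parts = 2 := by rw [← card_bigs, hl]; rfl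
  have hmn : m ≤ n := by
    have := (split_parts z).2
    rwa [hz, Multiset.sum_singleton] at this
  have h0 := Th_zero (l := l) (by omega) m (by omega) hmn
  have h1 : Th l m = H l z + ∑ j ∈ (Finset.range (m + 1)).filter (fun j => 2 ≤ j ∧ 2 * j ≤ m),
      H l (tl n (m - j) j) := by
    unfold Th
    have hmem : z ∈ (univ : Finset (Lam n)).filter (fun y => (bigs y.parts).sum = m) := by
      rw [Finset.mem_filter, hz]
      exact ⟨Finset.mem_univ _, by simp⟩
    rw [← Finset.add_sum_erase _ _ hmem]
    congr 1
    symm
    have hb : ∀ j, (2 ≤ j ∧ 2 * j ≤ m) → bigs (tl n (m - j) j).parts = {m - j, j} := fun j hj =>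
      bigs_tl (by omega) (by omega) (by omega)
    apply Finset.sum_of_injOn (fun j => tl n (m - j) j)
    · intro j hj j' hj' hjj
      rw [Finset.mem_coe, Finset.mem_filter] at hj hj'
      have h3 := congrArg (fun y : Lam n => bigs y.parts) hjj
      simp only at h3
      rw [hb j hj.2, hb j' hj'.2] at h3
      exact (pair_eq h3 (by omega) (by omega)).2
    · intro j hj
      rw [Finset.mem_coe, Finset.mem_filter] at hj
      rw [Finset.mem_coe, Finset.mem_erase, Finset.mem_filter, hb j hj.2]
      refine ⟨?_, Finset.mem_univ _, ?_⟩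
      · intro hc
        have h3 := hb j hj.2
        rw [show tl n (m - j) j = z from hc, hz] at h3
        have := congrArg Multiset.card h3
        simp at this
      · simp
        omega
    · intro y hy hy'
      rw [Finset.mem_erase, Finset.mem_filter] at hy
      by_contra hc
      have hle := H_ne hc
      have hb1 : big y.parts ≤ 2 := by
        by_contra hc'
        exact hc (H_zero l y (by omega))
      obtain ⟨b, hbm, hkb⟩ := Ref.part (le_def.1 hle) (a := k) (by
        have : k ∈ bigs l.parts := by rw [hl]; simp
        exact (Multiset.mem_filter.1 this).1)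
      have hb2 : b ∈ bigs y.parts := Multiset.mem_filter.2 ⟨hbm, by omega⟩
      obtain ⟨X, hX⟩ := Multiset.exists_cons_of_mem hb2
      rw [← card_bigs, hX, Multiset.card_cons] at hb1
      have hX' : Multiset.card X = 0 ∨ Multiset.card X = 1 := by omega
      rcases hX' with hX' | hX'
      · rw [Multiset.card_eq_zero] at hX'
        subst hX'
        apply hy.1
        apply bigs_ext
        have := hy.2.2
        rw [hX] at this ⊢
        rw [hz]
        simp only [Multiset.sum_cons, Multiset.sum_zero, add_zero] at this
        rw [this]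
        rfl
      · obtain ⟨c, rfl⟩ := Multiset.card_eq_one.1 hX'
        have hc2 : 2 ≤ c := two_le_of_mem_bigs (s := y.parts) (by rw [hX]; simp)
        have hb3 : 2 ≤ b := two_le_of_mem_bigs hb2
        have hs := hy.2.2
        rw [hX] at hs
        simp only [Multiset.sum_cons, Multiset.sum_singleton] at hs
        apply hy'
        rcases le_total c b with hcb | hcb
        · refine ⟨c, Finset.mem_coe.2 (Finset.mem_filter.2 ⟨Finset.mem_range.2 (by omega),
            hc2, by omega⟩), ?_⟩
          apply bigs_ext
          dsimp only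
          rw [hb c ⟨hc2, by omega⟩, hX, show m - c = b by omega]
          rfl
        · refine ⟨b, Finset.mem_coe.2 (Finset.mem_filter.2 ⟨Finset.mem_range.2 (by omega),
            hb3, by omega⟩), ?_⟩
          apply bigs_ext
          dsimp only
          rw [hb b ⟨hb3, by omega⟩, hX, show m - b = c by omega, Multiset.pair_comm]
          rfl
    · intro j _
      rfl
  have h2 : ∑ j ∈ (Finset.range (m + 1)).filter (fun j => 2 ≤ j ∧ 2 * j ≤ m),
      H l (tl n (m - j) j) = ∑ j ∈ Finset.range (m + 1), hh k q (m - j) j := by
    rw [Finset.sum_filter]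
    apply Finset.sum_congr rfl
    intro j _
    by_cases hj : 2 ≤ j ∧ 2 * j ≤ m
    · rw [if_pos hj]
      have hb := bigs_tl (n := n) (a := m - j) (b := j) (by omega) (by omega) (by omega)
      rw [H_words l _ (by rw [← card_bigs, hb, hl2]; rfl)]
      exact H_two hl hq hqk _ _ _ _ rfl hb (by omega) (by omega)
    · rw [if_neg hj, hh_zero (by omega)]
  rw [h1, h2] at h0
  linarith

end Pool.Agent.T9h92.MB2
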