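import Pool.Agent.T9h92.MB2.Mat
import Pool.Agent.T9h92.MB2.Fib

set_option autoImplicit false

/-! # Two parts `≥ 2` -/

namespace Pool.Agent.T9h92.MB2

open Multiset Finset Pool.Agent.K1H55.MB

lemma K_pairs {n : ℕ} {y r : Lam n} (hb : big y.parts = big r.parts) (hle : y ≤ r)
    (hU : ¬ (2 ≤ y.parts.count 1 ∧ U y ≤ r)) :
    ∃ M : Multiset (ℕ × ℕ), M.map Prod.fst = bigs y.parts ∧ M.map Prod.snd = bigs r.parts ∧
      (∀ p ∈ M, p.2 = p.1 ∨ p.2 = p.1 + 1) ∧
      (∀ v, (v, v + 1) ∈ M → (v + 1, v + 2) ∈ M → False) := by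
  obtain ⟨P, hP1, hP2⟩ := id hle
  have hP3 : ∀ Q ∈ P, 2 ≤ Q.sum → ∃ a ∈ Q, 2 ≤ a := by
    intro Q hQ hQ2
    by_contra hc
    push Not at hc
    exact hU (few' hP1 hP2 hQ hQ2 hc)
  obtain ⟨M, h1, h2, h3⟩ := pairs P hP3 (by
    rw [hP1, hP2, card_bigs, card_bigs, hb])
  rw [hP1] at h1
  rw [hP2] at h2
  refine ⟨M, h1, h2, ?_, ?_⟩
  · intro p hp
    have := h3 p hp
    by_contra hc
    exact hU (U_le_of_pair h1 h2 h3 hp (by omega))
  · intro v hv hv'
    obtain ⟨M1, rfl⟩ := Multiset.exists_cons_of_mem hv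
    rw [Multiset.mem_cons] at hv'
    rcases hv' with hv' | hv'
    · simp at hv'
    obtain ⟨M2, rfl⟩ := Multiset.exists_cons_of_mem hv'
    apply hU
    refine U_le_of_pair (M := (v, v + 2) ::ₘ (v + 1, v + 1) ::ₘ M2) ?_ ?_ ?_
      (Multiset.mem_cons_self _ _) le_rfl
    · rw [← h1]; simp
    · rw [← h2]
      simp only [Multiset.map_cons]
      exact Multiset.cons_swap _ _ _
    · intro p hp
      simp only [Multiset.mem_cons] at hp
      rcases hp with rfl | rfl | hp
      · simp
      · simp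
      · exact h3 p (Multiset.mem_cons_of_mem (Multiset.mem_cons_of_mem hp))

lemma K_two {n : ℕ} {y r : Lam n} {i j : ℕ} (hr : bigs r.parts = {i, j})
    (hy : big y.parts = 2) (hle : y ≤ r) (hU : ¬ (2 ≤ y.parts.count 1 ∧ U y ≤ r)) :
    ∃ a b, bigs y.parts = {a, b} ∧ (i = a ∨ i = a + 1) ∧ (j = b ∨ j = b + 1) ∧
      ¬ (i = a + 1 ∧ j = b + 1 ∧ (a = b + 1 ∨ b = a + 1)) := by
  have hr2 : big r.parts = 2 := by rw [← card_bigs, hr]; rfl
  obtain ⟨M, h1, h2, h3, h4⟩ := K_pairs (hy.trans hr2.symm) hle hU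
  rw [hr, Multiset.insert_eq_cons, ← Multiset.map_eq_cons] at h2
  obtain ⟨p, hp, hpi, h5⟩ := h2
  have h5' : Multiset.map Prod.snd (M.erase p) = j ::ₘ 0 := h5
  rw [← Multiset.map_eq_cons] at h5'
  obtain ⟨p', hp', hpj, h6⟩ := h5'
  rw [Multiset.map_eq_zero] at h6
  have hM : M = {p, p'} := by
    rw [← Multiset.cons_erase hp, ← Multiset.cons_erase hp', h6]
    rfl
  obtain ⟨a, i'⟩ := p
  obtain ⟨b, j'⟩ := p'
  simp only at hpi hpj
  subst hpi hpj
  subst hM
  have h7 := h3 (a, i') (by simp)
  have h8 := h3 (b, j') (by simp)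
  simp only at h7 h8
  refine ⟨a, b, ?_, h7, h8, ?_⟩
  · rw [← h1]
    simp [Multiset.insert_eq_cons]
  · rintro ⟨e1, e2, e3 | e3⟩
    · subst e1 e2 e3
      exact h4 b (by simp) (by simp)
    · subst e1 e2 e3
      exact h4 a (by simp) (by simp)

/-- the partition with two given parts `≥ 2` -/
def tl (n a b : ℕ) : Lam n := toLam n {a, b}

lemma bigs_tl {n a b : ℕ} (ha : 2 ≤ a) (hb : 2 ≤ b) (h : a + b ≤ n) :
    bigs (tl n a b).parts = {a, b} := by
  unfold tl
  apply bigs_toLam
  · intro c hc
    simp only [Multiset.insert_eq_cons, Multiset.mem_cons, Multiset.mem_singleton] at hc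
    omega
  · simpa using h

lemma pair_eq {a b a' b' : ℕ} (h : ({a, b} : Multiset ℕ) = {a', b'}) (h1 : b ≤ a) (h2 : b' ≤ a') :
    a = a' ∧ b = b' := by
  have h3 : a ∈ ({a', b'} : Multiset ℕ) := by rw [← h]; simp
  have h4 := congrArg Multiset.sum h
  simp only [Multiset.insert_eq_cons, Multiset.sum_cons, Multiset.sum_singleton,
    Multiset.mem_cons, Multiset.mem_singleton] at h3 h4
  omega

lemma KE_one {n : ℕ} {y z : Lam n} {u : List ℕ} (hu : Bad u)
    (hp : Path (bigs y.parts) u (bigs z.parts)) : KE n y z = 1 := by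
  have h := hp.card
  rw [card_bigs, card_bigs] at h
  unfold KE KK
  rw [if_pos h.symm, if_pos (kernel_back hu hp)]

lemma sum_two {n : ℕ} (l z : Lam n) (P : Finset (ℕ × ℕ)) (hl : big l.parts = 2)
    (h1 : ∀ y : Lam n, big y.parts = 2 → y ≤ z → ¬ (2 ≤ y.parts.count 1 ∧ U y ≤ z) →
      ∃ p ∈ P, (2 ≤ p.2 ∧ p.2 ≤ p.1 ∧ p.1 + p.2 ≤ n) ∧ bigs y.parts = {p.1, p.2})
    (h2 : ∀ p ∈ P, (2 ≤ p.2 ∧ p.2 ≤ p.1 ∧ p.1 + p.2 ≤ n) →
      ∃ u, Bad u ∧ Path {p.1, p.2} u (bigs z.parts)) :
    ∑ y : Lam n, hw l y * KE n y z = ∑ p ∈ P,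
      if (2 ≤ p.2 ∧ p.2 ≤ p.1 ∧ p.1 + p.2 ≤ n) then hw l (tl n p.1 p.2) else 0 := by
  classical
  rw [← Finset.sum_filter]
  symm
  apply Finset.sum_of_injOn (fun p => tl n p.1 p.2)
  · intro p hp p' hp' hpp
    rw [Finset.mem_coe, Finset.mem_filter] at hp hp'
    have h3 := congrArg (fun y : Lam n => bigs y.parts) hpp
    simp only at h3
    rw [bigs_tl (by omega) (by omega) (by omega), bigs_tl (by omega) (by omega) (by omega)] at h3
    have h4 := pair_eq h3 (by omega) (by omega)
    exact Prod.ext h4.1 h4.2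
  · intro p _
    exact Finset.mem_coe.2 (Finset.mem_univ _)
  · intro y _ hy
    by_contra hc
    have h3 : hw l y ≠ 0 := left_ne_zero_of_mul hc
    have h4 : KE n y z ≠ 0 := right_ne_zero_of_mul hc
    have h5 : big y.parts = 2 := by
      by_contra h6
      exact h3 (hw_zero (by omega))
    unfold KE KK at h4
    have h6 : big y.parts = big z.parts := by
      by_contra h7
      exact h4 (if_neg h7)
    rw [if_pos h6] at h4
    have h7 : y ≤ z ∧ ¬ (2 ≤ y.parts.count 1 ∧ U y ≤ z) := by
      by_contra h8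
      exact h4 (if_neg h8)
    obtain ⟨p, hp, hv, hpy⟩ := h1 y h5 h7.1 h7.2
    apply hy
    refine ⟨p, Finset.mem_coe.2 (Finset.mem_filter.2 ⟨hp, hv⟩), ?_⟩
    apply bigs_ext
    rw [hpy]
    exact bigs_tl (by omega) (by omega) (by omega)
  · intro p hp
    rw [Finset.mem_filter] at hp
    obtain ⟨u, hu, hpu⟩ := h2 p hp.1 hp.2
    rw [KE_one hu (by rw [bigs_tl (by omega) (by omega) (by omega)]; exact hpu), mul_one]

lemma path_fst {v X : ℕ} : Path {v, X} [v] {v + 1, X} := path_of_list [v] {X}

lemma path_snd {v X : ℕ} : Path {X, v} [v] {X, v + 1} := by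
  rw [Multiset.pair_comm X v, Multiset.pair_comm X (v + 1)]
  exact path_fst

lemma path_both {v w : ℕ} : Path {v, w} [v, w] {v + 1, w + 1} := path_of_list [v, w] 0

lemma bad_nil : Bad [] := by simp [Bad]
lemma bad_one (v : ℕ) : Bad [v] := by simp [Bad]
lemma bad_two {v w : ℕ} (h : w = v ∨ w + 2 ≤ v) : Bad [v, w] := by simp [Bad, h]

/-- **two parts** -/
theorem H_two {n k q : ℕ} {l : Lam n} (hl : bigs l.parts = {k, q}) (hq : 2 ≤ q) (hqk : q ≤ k)
    (s : ℕ) : ∀ (z : Lam n) (i j : ℕ), i + j = s → bigs z.parts = {i, j} → 2 ≤ j → j ≤ i →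
      hw l z = hh k q i j := by
  classical
  have hl2 : big l.parts = 2 := by rw [← card_bigs, hl]; rfl
  induction s using Nat.strong_induction_on with
  | _ s ih =>
    intro z i j hs hz hj hji
    have hn : i + j ≤ n := by
      have := (split_parts z).2
      rw [hz] at this
      simpa using this
    have hzt : tl n i j = z := bigs_ext (by rw [bigs_tl (by omega) hj hn, hz])
    have hNK := congrFun (congrFun (NK n) l) z
    rw [Matrix.mul_apply, Matrix.one_apply] at hNK
    simp only [NN_eq] at hNK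
    have hlz : (l = z) ↔ (i = k ∧ j = q) := by
      constructor
      · rintro rfl
        have := pair_eq (hl.symm.trans hz) hqk hji
        omega
      · rintro ⟨rfl, rfl⟩
        exact bigs_ext (hl.trans hz.symm)
    have hF : ∀ a b, a + b < s → b ≤ a → a + b ≤ n →
        (if (2 ≤ b ∧ b ≤ a ∧ a + b ≤ n) then hw l (tl n a b) else 0) = hh k q a b := by
      intro a b hab hba habn
      by_cases hb : 2 ≤ b
      · rw [if_pos ⟨hb, hba, habn⟩]
        exact ih (a + b) hab _ a b rfl (bigs_tl (by omega) hb habn) hb hba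
      · rw [if_neg (by omega), hh_zero (by omega)]
    have hself : (if (2 ≤ j ∧ j ≤ i ∧ i + j ≤ n) then hw l (tl n i j) else 0) = hw l z := by
      rw [if_pos ⟨hj, hji, hn⟩, hzt]
    obtain ⟨j', rfl⟩ : ∃ j', j = j' + 1 := ⟨j - 1, by omega⟩
    obtain ⟨i', rfl⟩ : ∃ i', i = i' + 1 := ⟨i - 1, by omega⟩
    rcases Nat.lt_or_ge i' (j' + 2) with hd | hd
    · rcases Nat.lt_or_ge i' (j' + 1) with hd' | hd'
      · obtain rfl : i' = j' := by omega
        have h := sum_two l z {(i' + 1, i' + 1), (i' + 1, i'), (i', i')} hl2 (by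
          intro y hy hle hU
          obtain ⟨a, b, h1, h2, h3, h4⟩ := K_two hz hy hle hU
          have ha : 2 ≤ a := two_le_of_mem_bigs (s := y.parts) (by rw [h1]; simp)
          have hb : 2 ≤ b := two_le_of_mem_bigs (s := y.parts) (by rw [h1]; simp)
          rcases le_total b a with hab | hab
          · refine ⟨(a, b), ?_, ⟨hb, hab, by omega⟩, h1⟩
            simp only [Finset.mem_insert, Finset.mem_singleton, Prod.mk.injEq]
            omega
          · refine ⟨(b, a), ?_, ⟨ha, hab, by omega⟩, by rw [h1, Multiset.pair_comm]⟩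
            simp only [Finset.mem_insert, Finset.mem_singleton, Prod.mk.injEq]
            omega) (by
          intro p hp hv
          simp only [Finset.mem_insert, Finset.mem_singleton] at hp
          rw [hz]
          rcases hp with rfl | rfl | rfl
          · exact ⟨[], bad_nil, rfl⟩
          · exact ⟨[i'], bad_one _, path_snd⟩
          · exact ⟨[i', i'], bad_two (Or.inl rfl), path_both⟩)
        rw [h, Finset.sum_insert (by simp), Finset.sum_insert (by simp), Finset.sum_singleton] at hNK
        simp only at hNK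
        rw [hself, hF _ _ (by omega) (by omega) (by omega), hF _ _ (by omega) (by omega) (by omega)]
          at hNK
        have h5 := hh_R0 (k := k) (q := q) (j := i') hqk
        by_cases hk : i' + 1 = k ∧ i' + 1 = q
        · rw [if_pos (hlz.2 hk)] at hNK
          rw [if_pos hk] at h5
          linarith
        · rw [if_neg (fun hc => hk (hlz.1 hc))] at hNK
          rw [if_neg hk] at h5
          linarith
      · obtain rfl : i' = j' + 1 := by omega
        have h := sum_two l z {(j' + 2, j' + 1), (j' + 1, j' + 1), (j' + 2, j')} hl2 (by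
          intro y hy hle hU
          obtain ⟨a, b, h1, h2, h3, h4⟩ := K_two hz hy hle hU
          have ha : 2 ≤ a := two_le_of_mem_bigs (s := y.parts) (by rw [h1]; simp)
          have hb : 2 ≤ b := two_le_of_mem_bigs (s := y.parts) (by rw [h1]; simp)
          refine ⟨(a, b), ?_, ⟨hb, by omega, by omega⟩, h1⟩
          simp only [Finset.mem_insert, Finset.mem_singleton, Prod.mk.injEq]
          omega) (by
          intro p hp hv
          simp only [Finset.mem_insert, Finset.mem_singleton] at hp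
          rw [hz]
          rcases hp with rfl | rfl | rfl
          · exact ⟨[], bad_nil, rfl⟩
          · exact ⟨[j' + 1], bad_one _, path_fst⟩
          · exact ⟨[j'], bad_one _, path_snd⟩)
        rw [h, Finset.sum_insert (by simp), Finset.sum_insert (by simp), Finset.sum_singleton] at hNK
        simp only at hNK
        rw [show j' + 1 + 1 = j' + 2 from rfl] at *
        rw [hself, hF _ _ (by omega) (by omega) (by omega), hF _ _ (by omega) (by omega) (by omega)]
          at hNK
        have h5 := hh_R1 (k := k) (q := q) (j := j') hqk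
        by_cases hk : j' + 2 = k ∧ j' + 1 = q
        · rw [if_pos (hlz.2 hk)] at hNK
          rw [if_pos hk] at h5
          linarith
        · rw [if_neg (fun hc => hk (hlz.1 hc))] at hNK
          rw [if_neg hk] at h5
          linarith
    · have h := sum_two l z {(i' + 1, j' + 1), (i', j' + 1), (i' + 1, j'), (i', j')} hl2 (by
        intro y hy hle hU
        obtain ⟨a, b, h1, h2, h3, h4⟩ := K_two hz hy hle hU
        have ha : 2 ≤ a := two_le_of_mem_bigs (s := y.parts) (by rw [h1]; simp)
        have hb : 2 ≤ b := two_le_of_mem_bigs (s := y.parts) (by rw [h1]; simp)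
        refine ⟨(a, b), ?_, ⟨hb, by omega, by omega⟩, h1⟩
        simp only [Finset.mem_insert, Finset.mem_singleton, Prod.mk.injEq]
        omega) (by
        intro p hp hv
        simp only [Finset.mem_insert, Finset.mem_singleton] at hp
        rw [hz]
        rcases hp with rfl | rfl | rfl | rfl
        · exact ⟨[], bad_nil, rfl⟩
        · exact ⟨[i'], bad_one _, path_fst⟩
        · exact ⟨[j'], bad_one _, path_snd⟩
        · exact ⟨[i', j'], bad_two (Or.inr hd), path_both⟩)
      rw [h, Finset.sum_insert (by simp), Finset.sum_insert (by simp),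
        Finset.sum_insert (by simp), Finset.sum_singleton] at hNK
      simp only at hNK
      rw [hself, hF _ _ (by omega) (by omega) (by omega), hF _ _ (by omega) (by omega) (by omega),
        hF _ _ (by omega) (by omega) (by omega)] at hNK
      have h5 := hh_R2 (k := k) (q := q) hqk hd
      by_cases hk : i' + 1 = k ∧ j' + 1 = q
      · rw [if_pos (hlz.2 hk)] at hNK
        rw [if_pos hk] at h5
        linarith
      · rw [if_neg (fun hc => hk (hlz.1 hc))] at hNK
        rw [if_neg hk] at h5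
        linarith

end Pool.Agent.T9h92.MB2
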