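import Pool.Agent.K1H55.MB.Hook

set_option autoImplicit false

/-! # Words of increments -/

namespace Pool.Agent.T9h92.MB2

open Multiset Finset Pool.Agent.K1H55.MB

/-- `Path B w C`: the letters of `w`, read from left to right, change the multiset `B` into `C`,
where a letter `v` replaces one element `v` of the current multiset by `v + 1`. -/
def Path : Multiset ℕ → List ℕ → Multiset ℕ → Prop
  | B, [], C => B = C
  | B, v :: w, C => v ∈ B ∧ Path ((v + 1) ::ₘ B.erase v) w C

/-- for two consecutive letters `a, b` we have `b = a - 1` or `b > a` -/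
def Good (w : List ℕ) : Prop := w.IsChain (fun a b => b + 1 = a ∨ a < b)

/-- for two consecutive letters `a, b` we have `b = a` or `b ≤ a - 2` -/
def Bad (w : List ℕ) : Prop := w.IsChain (fun a b => b = a ∨ b + 2 ≤ a)

lemma Path.append {B C : Multiset ℕ} {w u : List ℕ} :
    Path B (w ++ u) C ↔ ∃ D, Path B w D ∧ Path D u C := by
  induction w generalizing B with
  | nil => simp [Path]
  | cons v w ih =>
    simp only [List.cons_append, Path, ih]
    constructor
    · rintro ⟨h1, D, h2, h3⟩
      exact ⟨D, ⟨h1, h2⟩, h3⟩
    · rintro ⟨D, ⟨h1, h2⟩, h3⟩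
      exact ⟨h1, D, h2, h3⟩

lemma Path.unique {B C C' : Multiset ℕ} {w : List ℕ} (h : Path B w C) (h' : Path B w C') :
    C = C' := by
  induction w generalizing B with
  | nil => exact h.symm.trans h'
  | cons v w ih => exact ih h.2 h'.2

lemma Path.card {B C : Multiset ℕ} {w : List ℕ} (h : Path B w C) :
    Multiset.card C = Multiset.card B := by
  induction w generalizing B with
  | nil => rw [show B = C from h]
  | cons v w ih =>
    rw [ih h.2, Multiset.card_cons, Multiset.card_erase_of_mem h.1]
    have := Multiset.card_pos_iff_exists_mem.2 ⟨v, h.1⟩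
    exact Nat.succ_pred_eq_of_pos this

lemma Path.sum {B C : Multiset ℕ} {w : List ℕ} (h : Path B w C) :
    C.sum = B.sum + w.length := by
  induction w generalizing B with
  | nil => rw [show B = C from h]; simp
  | cons v w ih =>
    rw [ih h.2, Multiset.sum_cons, List.length_cons]
    have := Multiset.sum_erase h.1
    omega

lemma Path.two {B C : Multiset ℕ} {w : List ℕ} (h : Path B w C) (hB : ∀ a ∈ B, 2 ≤ a) :
    (∀ a ∈ C, 2 ≤ a) ∧ ∀ a ∈ w, 2 ≤ a := by
  induction w generalizing B with
  | nil => exact ⟨by rw [← show B = C from h]; exact hB, by simp⟩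
  | cons v w ih =>
    have hv := hB v h.1
    have := ih h.2 (by
      intro a ha
      rw [Multiset.mem_cons] at ha
      rcases ha with rfl | ha
      · omega
      · exact hB a (Multiset.mem_of_mem_erase ha))
    refine ⟨this.1, ?_⟩
    intro a ha
    rw [List.mem_cons] at ha
    rcases ha with rfl | ha
    · exact hv
    · exact this.2 a ha

/-- the words of length `m` from `B` to `C` -/
def W : ℕ → Multiset ℕ → Multiset ℕ → Finset (List ℕ)
  | 0, B, C => if B = C then {[]} else ∅
  | m + 1, B, C => B.toFinset.biUnion (fun v => (W m ((v + 1) ::ₘ B.erase v) C).image (v :: ·))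

lemma mem_W {m : ℕ} {B C : Multiset ℕ} {w : List ℕ} :
    w ∈ W m B C ↔ w.length = m ∧ Path B w C := by
  induction m generalizing B w with
  | zero =>
    unfold W
    constructor
    · intro h
      split_ifs at h with h1
      · rw [Finset.mem_singleton] at h
        subst h
        exact ⟨rfl, h1⟩
      · simp at h
    · rintro ⟨h1, h2⟩
      rw [List.length_eq_zero_iff] at h1
      subst h1
      rw [if_pos (show B = C from h2)]
      simp
  | succ m ih =>
    unfold W
    simp only [Finset.mem_biUnion, Multiset.mem_toFinset, Finset.mem_image]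
    constructor
    · rintro ⟨v, hv, w', hw', rfl⟩
      rw [ih] at hw'
      exact ⟨by simp [hw'.1], hv, hw'.2⟩
    · rintro ⟨h1, h2⟩
      cases w with
      | nil => simp at h1
      | cons v w =>
        refine ⟨v, h2.1, w, ?_, rfl⟩
        rw [ih]
        exact ⟨by simpa using h1, h2.2⟩

/-- the words from `B` to `C` -/
def Wd (B C : Multiset ℕ) : Finset (List ℕ) := W (C.sum - B.sum) B C

lemma mem_Wd {B C : Multiset ℕ} {w : List ℕ} : w ∈ Wd B C ↔ Path B w C := by
  unfold Wd
  rw [mem_W]
  constructor
  · exact fun h => h.2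
  · intro h
    exact ⟨by rw [h.sum]; omega, h⟩

open Classical in
lemma alpha (t : List ℕ) (ht : t ≠ []) :
    ∑ s ∈ Finset.range (t.length + 1),
      (if Good (t.take s) ∧ Bad (t.drop s) then (-1 : ℤ) ^ s else 0) = 0 := by
  induction t with
  | nil => exact absurd rfl ht
  | cons a t ih =>
    cases t with
    | nil =>
      simp [Finset.sum_range_succ, Good, Bad]
    | cons b t =>
      rw [Finset.sum_range_succ']
      simp only [List.take_succ_cons, List.drop_succ_cons, List.take_zero, List.drop_zero,
        pow_zero]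
      have ih' := ih (by simp)
      by_cases hab : b + 1 = a ∨ a < b
      · have e1 : ∀ s, Good (a :: (b :: t).take s) ↔ Good ((b :: t).take s) := by
          intro s
          cases s with
          | zero => simp [Good]
          | succ s => simp [Good, List.isChain_cons_cons, hab]
        have e2 : ¬ (Good [] ∧ Bad (a :: b :: t)) := by
          rintro ⟨-, h⟩
          unfold Bad at h
          rw [List.isChain_cons_cons] at h
          have := h.1
          omega
        rw [if_neg e2, add_zero]
        simp only [e1]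
        refine Eq.trans ?_ (show -(∑ s ∈ Finset.range ((b :: t).length + 1),
          (if Good ((b :: t).take s) ∧ Bad ((b :: t).drop s) then (-1 : ℤ) ^ s else 0)) = 0 by
          rw [ih', neg_zero])
        rw [← Finset.sum_neg_distrib]
        apply Finset.sum_congr rfl
        intro s _
        by_cases h : Good ((b :: t).take s) ∧ Bad ((b :: t).drop s)
        · rw [if_pos h, if_pos h, pow_succ]; ring
        · rw [if_neg h, if_neg h, neg_zero]
      · have hab' : b = a ∨ b + 2 ≤ a := by omega
        have e1 : ∀ s, ¬ Good (a :: (b :: t).take (s + 1)) := by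
          intro s
          simp only [List.take_succ_cons, Good, List.isChain_cons_cons]
          exact fun h => hab h.1
        rw [show (a :: b :: t).length = t.length + 1 + 1 from rfl, Finset.sum_range_succ']
        have e2 : ∑ s ∈ Finset.range (t.length + 1),
            (if Good (a :: (b :: t).take (s + 1)) ∧ Bad ((b :: t).drop (s + 1)) then
              (-1 : ℤ) ^ (s + 1 + 1) else 0) = 0 := by
          apply Finset.sum_eq_zero
          intro s _
          rw [if_neg (fun h => e1 s h.1)]
        rw [e2]
        have e3 : Bad (a :: b :: t) ↔ Bad (b :: t) := by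
          unfold Bad
          rw [List.isChain_cons_cons]
          exact ⟨fun h => h.2, fun h => ⟨hab', h⟩⟩
        simp only [List.take_zero, List.drop_zero, zero_add, pow_one, e3]
        have e4 : Good [a] := by simp [Good]
        have e5 : Good [] := by simp [Good]
        simp only [e4, e5, true_and]
        split_ifs <;> simp

/-- the result of a word -/
def run : Multiset ℕ → List ℕ → Multiset ℕ
  | B, [] => B
  | B, v :: w => run ((v + 1) ::ₘ B.erase v) w

lemma Path.run {B C : Multiset ℕ} {w : List ℕ} (h : Path B w C) : run B w = C := by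
  induction w generalizing B with
  | nil => exact h
  | cons v w ih => exact ih h.2

/-- the parts `≥ 2` -/
def bigs (s : Multiset ℕ) : Multiset ℕ := s.filter (2 ≤ ·)

lemma card_bigs (s : Multiset ℕ) : Multiset.card (bigs s) = big s := by
  unfold bigs big
  rw [Multiset.countP_eq_card_filter]

lemma two_le_of_mem_bigs {s : Multiset ℕ} {a : ℕ} (h : a ∈ bigs s) : 2 ≤ a :=
  (Multiset.mem_filter.1 h).2

lemma split_parts {n : ℕ} (z : Lam n) :
    z.parts = bigs z.parts + replicate (n - (bigs z.parts).sum) 1 ∧ (bigs z.parts).sum ≤ n := by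
  have h1 : z.parts = bigs z.parts + z.parts.filter (fun a => ¬ 2 ≤ a) :=
    (Multiset.filter_add_not _ _).symm
  have h2 : z.parts.filter (fun a => ¬ 2 ≤ a) =
      replicate (Multiset.card (z.parts.filter (fun a => ¬ 2 ≤ a))) 1 := by
    apply Multiset.eq_replicate_card.2
    intro a ha
    rw [Multiset.mem_filter] at ha
    have := z.pos ha.1
    omega
  have h3 := z.sum
  rw [h1, h2, Multiset.sum_add] at h3
  simp only [Multiset.sum_replicate, smul_eq_mul, mul_one] at h3
  refine ⟨?_, by omega⟩
  conv_lhs => rw [h1, h2]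
  congr 2
  omega

lemma bigs_ext {n : ℕ} {y z : Lam n} (h : bigs y.parts = bigs z.parts) : y = z := by
  apply Lam.ext
  rw [(split_parts y).1, (split_parts z).1, h]

/-- the partition of `n` with given parts `≥ 2` -/
def toLam (n : ℕ) (D : Multiset ℕ) : Lam n :=
  if h : (∀ a ∈ D, 2 ≤ a) ∧ D.sum ≤ n then
    mk (D + replicate (n - D.sum) 1) (by
      intro a ha
      rw [Multiset.mem_add] at ha
      rcases ha with ha | ha
      · have := h.1 a ha
        omega
      · rw [Multiset.eq_of_mem_replicate ha]; norm_num) (by
      rw [Multiset.sum_add]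
      simp only [Multiset.sum_replicate, smul_eq_mul, mul_one]
      have := h.2
      omega)
  else mk (replicate n 1) (by
      intro a ha
      rw [Multiset.eq_of_mem_replicate ha]; norm_num) (by simp)

lemma toLam_parts {n : ℕ} {D : Multiset ℕ} (h : ∀ a ∈ D, 2 ≤ a) (h' : D.sum ≤ n) :
    (toLam n D).parts = D + replicate (n - D.sum) 1 := by
  unfold toLam
  rw [dif_pos ⟨h, h'⟩]
  rfl

lemma bigs_toLam {n : ℕ} {D : Multiset ℕ} (h : ∀ a ∈ D, 2 ≤ a) (h' : D.sum ≤ n) :
    bigs (toLam n D).parts = D := by
  rw [toLam_parts h h']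
  unfold bigs
  rw [Multiset.filter_add, Multiset.filter_eq_self.2 h, Multiset.filter_eq_nil.2]
  · simp
  · intro a ha
    rw [Multiset.eq_of_mem_replicate ha]
    norm_num

lemma toLam_bigs {n : ℕ} (z : Lam n) : toLam n (bigs z.parts) = z := by
  apply bigs_ext
  exact bigs_toLam (fun a ha => two_le_of_mem_bigs ha) (split_parts z).2

open Classical in
/-- the double counting -/
theorem double (n : ℕ) {B C : Multiset ℕ} (hB : ∀ a ∈ B, 2 ≤ a) (hC : C.sum ≤ n) (hBC : B ≠ C) :
    ∑ y : Lam n, (∑ w ∈ Wd B (bigs y.parts), if Good w then (-1 : ℤ) ^ w.length else 0) *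
      (∑ u ∈ Wd (bigs y.parts) C, if Bad u then 1 else 0) = 0 := by
  have e1 : ∀ y : Lam n, (∑ w ∈ Wd B (bigs y.parts), if Good w then (-1 : ℤ) ^ w.length else 0) *
      (∑ u ∈ Wd (bigs y.parts) C, if Bad u then 1 else 0) =
      ∑ p ∈ Wd B (bigs y.parts) ×ˢ Wd (bigs y.parts) C,
        if Good p.1 ∧ Bad p.2 then (-1 : ℤ) ^ p.1.length else 0 := by
    intro y
    rw [Finset.sum_mul_sum, Finset.sum_product]
    apply Finset.sum_congr rfl
    intro w _
    apply Finset.sum_congr rfl
    intro u _
    by_cases h1 : Good w <;> by_cases h2 : Bad u <;> simp [h1, h2]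
  rw [Finset.sum_congr rfl fun y _ => e1 y, Finset.sum_sigma']
  have e2 : ∑ t ∈ Wd B C, ∑ s ∈ Finset.range (t.length + 1),
      (if Good (t.take s) ∧ Bad (t.drop s) then (-1 : ℤ) ^ s else 0) = 0 := by
    apply Finset.sum_eq_zero
    intro t ht
    apply alpha
    rintro rfl
    rw [mem_Wd] at ht
    exact hBC ht
  refine Eq.trans ?_ e2
  rw [Finset.sum_sigma']
  refine Finset.sum_nbij' (fun x => ⟨x.2.1 ++ x.2.2, x.2.1.length⟩)
    (fun x => ⟨toLam n (run B (x.1.take x.2)), (x.1.take x.2, x.1.drop x.2)⟩) ?_ ?_ ?_ ?_ ?_
  · rintro ⟨y, w, u⟩ h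
    simp only [Finset.mem_sigma, Finset.mem_univ, true_and, Finset.mem_product, mem_Wd,
      Finset.mem_range, List.length_append] at h ⊢
    exact ⟨Path.append.2 ⟨_, h.1, h.2⟩, by omega⟩
  · rintro ⟨t, s⟩ h
    simp only [Finset.mem_sigma, Finset.mem_univ, true_and, Finset.mem_product, mem_Wd,
      Finset.mem_range] at h ⊢
    have h1 := h.1
    rw [← List.take_append_drop s t, Path.append] at h1
    obtain ⟨D, h2, h3⟩ := h1
    have h4 : bigs (toLam n (run B (t.take s))).parts = D := by
      rw [h2.run]
      exact bigs_toLam (h2.two hB).1 (by have := h3.sum; omega)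
    rw [h4]
    exact ⟨h2, h3⟩
  · rintro ⟨y, w, u⟩ h
    simp only [Finset.mem_sigma, Finset.mem_univ, true_and, Finset.mem_product, mem_Wd] at h
    simp only [List.take_left', List.drop_left']
    rw [h.1.run, toLam_bigs]
  · rintro ⟨t, s⟩ h
    simp only [Finset.mem_sigma, Finset.mem_range] at h
    simp only [List.take_append_drop, List.length_take]
    congr 1
    omega
  · rintro ⟨y, w, u⟩ h
    simp only [List.take_left, List.drop_left]

end Pool.Agent.T9h92.MB2
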